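import Pool.Agent.EG.HyLio
import Pool.Agent.H62.EF.ZalA
import Pool.Agent.H62.EF.LimL

/-!
# EG HyVer: entire curves in the fibre over a good value are constant

Suppose `G z ≠ a • G w` for all `a`.  If `fs (G z) (G' z) ≤ L` for all `z` and some `L`: there is `z₀` with `wd (G z₀) (G' z₀) ≠ 0` (otherwise `G` is constant in the projective space: for `i, j` the function `G_i G_j' - G_j G_i'` is `0`, so `(G_j / G_i)' = 0` near a point where `G_i ≠ 0`,
and by the identity theorem `G_i (z) G_j (w) = G_j (z) G_i (w)`; or use the lemma `zal_ident` of `H62/EF/Zal.lean` (copy it) after showing that `G ζ ∈ ℂ G ζ₀` near `ζ₀`; e.g. `G_i ≠ 0` on a ball, `(1 / G_i) • G` has derivative `0`: `deriv G = b • G` gives `deriv ((1 / G_i) • G) = 0`), and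
`badQ_of_curve` contradicts `hc` (`Bad.reg`).
Otherwise for every `n` there is `z n` with `4 (n + 1) < fs (G (z n)) (G' (z n))`.  Follow the proof of `uniform_bound` in `H62/EF/Zal.lean`: `rescale_fs` for `ζ ↦ G (ζ + z n)`, so `G n ζ = G (z₀ + a⁻¹ ζ + z n)` has `fs ≤ 2` on `ball 0 (n + 1)` and `fs (G n 0) = 1`; `limit_curves` gives an entire
`H` in `X` with `fs (H 0) (H' 0) = 1`, `fs (H z) (H' z) ≤ 2`, `pr (G n ζ) → pr (H ζ)`, so `u (H ζ) - c ∈ Λ` (`mem_fibre_of_tendsto`, `c n = c`); `badQ_of_curve` for `H`, `z₀ = 0` contradicts `hc`.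
-/

set_option autoImplicit false

open Topology Filter Metric

namespace Pool.Agent.EG

open Pool.Agent.H36.BP (EN fs wd)
open Pool.Agent.H14.PP (IsCone Chart Form Tan)
open Pool.Agent.H62.EF

variable {N M : ℕ} {X : Set (EN N)} {Λ : AddSubgroup ℂ} {u q : EN N → ℂ}

/-- an entire curve which is locally constant in the projective space is constant -/
private theorem ver_ident {G : ℂ → EN N} (hG : Differentiable ℂ G) (h0 : ∀ z, G z ≠ 0) {ζ₀ : ℂ}
    (h : ∀ᶠ z in 𝓝 ζ₀, ∃ c : ℂ, G z = c • G ζ₀) (z w : ℂ) : ∃ c : ℂ, G z = c • G w := by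
  have hcoord : ∀ i, Differentiable ℂ (fun z => G z i) := fun i => by
    exact (EuclideanSpace.proj (𝕜 := ℂ) i).differentiable.comp hG
  have hmin : ∀ i j : Fin (N + 1), ∀ z, G z i * G ζ₀ j - G z j * G ζ₀ i = 0 := by
    intro i j
    have hd : Differentiable ℂ (fun z => G z i * G ζ₀ j - G z j * G ζ₀ i) :=
      ((hcoord i).mul_const _).sub ((hcoord j).mul_const _)
    have han : AnalyticOnNhd ℂ (fun z => G z i * G ζ₀ j - G z j * G ζ₀ i) Set.univ := fun z _ => hd.analyticAt z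
    have hev : (fun z => G z i * G ζ₀ j - G z j * G ζ₀ i) =ᶠ[𝓝 ζ₀] 0 := by
      filter_upwards [h] with z hz
      obtain ⟨c, hc⟩ := hz
      rw [hc]
      simp only [PiLp.smul_apply, smul_eq_mul, Pi.zero_apply]
      ring
    have := han.eqOn_zero_of_preconnected_of_eventuallyEq_zero isPreconnected_univ (Set.mem_univ ζ₀) hev
    intro z
    exact this (Set.mem_univ z)
  obtain ⟨i, hi⟩ : ∃ i, G ζ₀ i ≠ 0 := by
    by_contra hcon
    push Not at hcon
    apply h0 ζ₀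
    ext i
    simpa using hcon i
  have hall : ∀ z, G z = (G z i / G ζ₀ i) • G ζ₀ := by
    intro z
    ext j
    have h1 := hmin i j z
    rw [PiLp.smul_apply, smul_eq_mul, div_mul_eq_mul_div, eq_div_iff hi]
    linear_combination -h1
  have hw : G w i / G ζ₀ i ≠ 0 := by
    intro hcon
    apply h0 w
    rw [hall w, hcon, zero_smul]
  have hwi : G ζ₀ = (G w i / G ζ₀ i)⁻¹ • G w := by
    have h1 := congrArg (fun x => (G w i / G ζ₀ i)⁻¹ • x) (hall w)
    simp only [smul_smul, inv_mul_cancel₀ hw, one_smul] at h1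
    exact h1.symm
  refine ⟨(G z i / G ζ₀ i) * (G w i / G ζ₀ i)⁻¹, ?_⟩
  rw [mul_smul, ← hwi]
  exact hall z

/-- a curve with proportional derivative is constant in the projective space -/
private theorem ver_wd {G : ℂ → EN N} (hG : Differentiable ℂ G) (h0 : ∀ z, G z ≠ 0) (h : ∀ z, wd (G z) (deriv G z) = 0) (z w : ℂ) :
    ∃ c : ℂ, G z = c • G w := by
  have hcoord : ∀ i, Differentiable ℂ (fun z => G z i) := fun i => by
    exact (EuclideanSpace.proj (𝕜 := ℂ) i).differentiable.comp hG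
  have hder : ∀ i z, HasDerivAt (fun z => G z i) (deriv G z i) z := by
    intro i z
    exact ((EuclideanSpace.proj (𝕜 := ℂ) i).hasFDerivAt.comp_hasDerivAt z (hG z).hasDerivAt)
  obtain ⟨i, hi⟩ : ∃ i, G 0 i ≠ 0 := by
    by_contra hcon
    push Not at hcon
    apply h0 0
    ext i
    simpa using hcon i
  obtain ⟨ε, hε, hb⟩ := Metric.eventually_nhds_iff_ball.mp ((hcoord i).continuous.continuousAt.eventually_ne hi)
  have hconst : ∀ j, ∀ z ∈ ball (0 : ℂ) ε, G z j / G z i = G 0 j / G 0 i := by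
    intro j z hz
    have hd : ∀ z ∈ ball (0 : ℂ) ε, HasDerivAt (fun z => G z j / G z i) 0 z := by
      intro z hz
      have h1 := (hder j z).div (hder i z) (hb z hz)
      obtain ⟨b, hbz⟩ := (Pool.Agent.H36.BP.wd_eq_zero (h0 z)).mp (h z)
      have h2 : (deriv G z j * G z i - G z j * deriv G z i) / G z i ^ 2 = 0 := by
        rw [hbz]
        simp only [PiLp.smul_apply, smul_eq_mul]
        ring
      rw [h2] at h1
      exact h1
    exact isOpen_ball.is_const_of_deriv_eq_zero (convex_ball (0 : ℂ) ε).isPreconnected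
      (fun z hz => (hd z hz).differentiableAt.differentiableWithinAt) (fun z hz => (hd z hz).deriv) hz (mem_ball_self hε)
  refine ver_ident hG h0 (ζ₀ := 0) ?_ z w
  filter_upwards [ball_mem_nhds (0 : ℂ) hε] with z hz
  refine ⟨G z i / G 0 i, ?_⟩
  ext j
  have h1 := hconst j z hz
  have h2 := hb z hz
  rw [PiLp.smul_apply, smul_eq_mul]
  rw [div_eq_div_iff h2 hi] at h1
  field_simp
  linear_combination h1

theorem vertical_const (hX : IsCone X) (hch : Charts X) (hu : TorusMap X Λ u) (hΛ : Lat Λ) (hM : 1 ≤ M) (Ω : Form X M 1)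
    (hΩ : Ω.NoZeroOff {x | x ∈ X ∧ q x = 0}) {c : ℂ} (hc : c ∉ Bad X Λ u q) {G : ℂ → EN N} (hG : Differentiable ℂ G)
    (hGX : ∀ z, G z ∈ X) (hGu : ∀ z, u (G z) - c ∈ Λ) (z w : ℂ) : ∃ a : ℂ, G z = a • G w := by
  have hX0 : ∀ x ∈ X, x ≠ 0 := fun x hx h => hX.zero_notMem (h ▸ hx)
  have hG0 : ∀ z, G z ≠ 0 := fun z => hX0 _ (hGX z)
  have hreg : Reg X Λ u c := Bad.reg hc
  by_cases hL : ∃ L : ℝ, ∀ z, fs (G z) (deriv G z) ≤ L
  · obtain ⟨L, hL⟩ := hL
    by_cases h : ∀ z, wd (G z) (deriv G z) = 0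
    · exact ver_wd hG hG0 h z w
    · push Not at h
      obtain ⟨z₀, hz₀⟩ := h
      exact absurd (Or.inr (badQ_of_curve hX hch hu hΛ hM Ω hΩ hreg hG hGX hGu hL hz₀)) hc
  exfalso
  push Not at hL
  have hbig : ∀ n : ℕ, ∃ z, 4 * ((n : ℝ) + 1) < fs (G z) (deriv G z) := fun n => hL _
  choose zc hzc using hbig
  have hresc : ∀ n : ℕ, ∃ (z₀ : ℂ) (a : ℝ), 4 * ((n : ℝ) + 1) < a ∧
      fs (G (z₀ + zc n)) (deriv (fun ζ => G (z₀ + ((a⁻¹ : ℝ) : ℂ) * ζ + zc n)) 0) = 1 ∧
      ∀ ζ ∈ ball (0 : ℂ) (n + 1), fs (G (z₀ + ((a⁻¹ : ℝ) : ℂ) * ζ + zc n))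
        (deriv (fun ζ => G (z₀ + ((a⁻¹ : ℝ) : ℂ) * ζ + zc n)) ζ) ≤ 2 := by
    intro n
    have hd : Differentiable ℂ (fun z => G (z + zc n)) := hG.comp (differentiable_id.add_const _)
    refine rescale_fs hd (fun z => hG0 _) n ?_
    rw [deriv_comp_add_const]
    simpa using hzc n
  choose z₀ a ha h1 h2 using hresc
  set K : ℕ → ℂ → EN N := fun n ζ => G (z₀ n + (((a n)⁻¹ : ℝ) : ℂ) * ζ + zc n) with hKdef
  have hKd : ∀ n, Differentiable ℂ (K n) := by
    intro n
    exact hG.comp (((differentiable_id.const_mul _).const_add _).add_const _)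
  have hKX : ∀ n ζ, K n ζ ∈ X := fun n ζ => hGX _
  have hKu : ∀ n ζ, u (K n ζ) - c ∈ Λ := fun n ζ => hGu _
  have hK1 : ∀ n, fs (K n 0) (deriv (K n) 0) = 1 := by
    intro n
    have := h1 n
    rw [hKdef]
    simpa only [mul_zero, add_zero] using this
  set 𝒰 : Ultrafilter ℕ := hyperfilter ℕ with h𝒰
  have hle : (𝒰 : Filter ℕ) ≤ atTop := Nat.hyperfilter_le_atTop
  have hρ : Tendsto (fun n : ℕ => (n : ℝ) + 1) 𝒰 atTop :=
    (tendsto_atTop_add_const_right _ _ tendsto_natCast_atTop_atTop).mono_left hle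
  obtain ⟨H, hH, hHX, hpr, hfs, -⟩ := limit_curves hX (L := 2) two_pos 𝒰 K (fun n : ℕ => (n : ℝ) + 1) hρ
    (Eventually.of_forall fun n => ⟨(hKd n).differentiableOn, fun z hz => ⟨hKX n z, h2 n z hz⟩⟩)
  have hone : fs (H 0) (deriv H 0) = 1 := by
    have h3 := hfs 0
    simp only [hK1] at h3
    exact tendsto_nhds_unique h3 tendsto_const_nhds
  have hwd : wd (H 0) (deriv H 0) ≠ 0 := by
    intro h3
    unfold fs at hone
    rw [h3, zero_div] at hone
    exact zero_ne_one hone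
  have hHu : ∀ ζ, u (H ζ) - c ∈ Λ := fun ζ =>
    mem_fibre_of_tendsto hX hu hΛ (x := fun n => K n ζ) (c := fun _ => c) (Eventually.of_forall fun n => ⟨hKX n ζ, hKu n ζ⟩) (hHX ζ) (hpr ζ)
      tendsto_const_nhds
  have hHL : ∀ ζ, fs (H ζ) (deriv H ζ) ≤ 2 := by
    intro ζ
    refine le_of_tendsto (hfs ζ) ?_
    have h3 : ∀ᶠ n : ℕ in (𝒰 : Filter ℕ), ‖ζ‖ < (n : ℝ) + 1 := hρ.eventually (eventually_gt_atTop _)
    filter_upwards [h3] with n hn
    exact h2 n ζ (by rwa [mem_ball_zero_iff])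
  exact hc (Or.inr (badQ_of_curve hX hch hu hΛ hM Ω hΩ hreg hH hHX hHu hHL hwd))

end Pool.Agent.EG
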