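import Pool.Agent.EG.HyDis
import Pool.Agent.EG.HyVer
import Pool.Agent.H17G.ChG
import Pool.Agent.H62.EL.ChN
import Pool.Agent.H17EF.MainE

/-!
# EG Bad: the bad values

Let `Ω` be a pluricanonical form on the surface without zeros outside a hypersurface section `q = 0`.  The bad values are the values `c` such that the fibre over `c` has a critical point or `q` vanishes along a germ of a curve in this fibre.
They are isolated, and all non-constant entire curves in fibres are over bad values.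
-/

set_option autoImplicit false

open Topology Filter Metric MvPolynomial

namespace Pool.Agent.EG

open Pool.Agent.H36.BP (EN fs wd formT isCone_transport tan_transport)
open Pool.Agent.H14.PP (IsCone Chart Form Tan)
open Pool.Agent.H62.EF
open Pool.Agent.H62.FC (Homog)
open Pool.Agent.H17 (PN)
open Pool.Agent.H17BP (Surface IsForm)
open Pool.Agent.H17LG.Variety (FunField IsLogGeneralType)
open Pool.Agent.H13.SM (conTan cone)
open Pool.Agent.H17EF
open Pool.Agent.H17G (IsNCPoint isNC_of)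

variable {N : ℕ} {Λ : AddSubgroup ℂ} {P : Ideal (MvPolynomial (Fin (N + 1)) ℂ)}

/-- a `Λ`-invariant set of isolated points is uniformly separated -/
theorem separated (hΛ : Lat Λ) {B : Set ℂ} (hinv : ∀ c ∈ B, ∀ l ∈ Λ, c + l ∈ B) (hiso : ∀ c, ∃ ε : ℝ, 0 < ε ∧ ∀ c' ∈ B, ‖c' - c‖ < ε → c' = c) :
    ∃ δ : ℝ, 0 < δ ∧ ∀ b ∈ B, ∀ b' ∈ B, b ≠ b' → δ ≤ ‖b - b'‖ := by
  obtain ⟨R, hR, hco⟩ := hΛ.cocompact
  choose ε hε hB using hiso
  obtain ⟨δ, hδ, h⟩ := lebesgue_number_lemma_of_metric (isCompact_closedBall (0 : ℂ) R) (c := fun c : ℂ => ball c (ε c))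
    (fun c => isOpen_ball) (fun c _ => Set.mem_iUnion.2 ⟨c, mem_ball_self (hε c)⟩)
  refine ⟨δ, hδ, fun b hb b' hb' hne => ?_⟩
  by_contra hlt
  push Not at hlt
  obtain ⟨l, hl, hbl⟩ := hco b
  have h1 : b - l ∈ B := by
    have := hinv b hb (-l) (Λ.neg_mem hl)
    rwa [← sub_eq_add_neg] at this
  have h2 : b' - l ∈ B := by
    have := hinv b' hb' (-l) (Λ.neg_mem hl)
    rwa [← sub_eq_add_neg] at this
  obtain ⟨c, hc⟩ := h (b - l) (by rwa [mem_closedBall_zero_iff])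
  have h3 : b - l = c := by
    refine hB c _ h1 ?_
    have := hc (mem_ball_self hδ)
    rwa [mem_ball, dist_eq_norm] at this
  have h4 : b' - l = c := by
    refine hB c _ h2 ?_
    have := hc (show b' - l ∈ ball (b - l) δ by
      rw [mem_ball, dist_eq_norm, sub_sub_sub_cancel_right, norm_sub_rev]
      exact hlt)
    rwa [mem_ball, dist_eq_norm] at this
  apply hne
  have := h3.trans h4.symm
  linear_combination this

/-- normal crossings, from the projective space to the cone -/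
theorem nc_of (hP : Homog P) (hS : Surface (cone P)) {u : PN N → ℂ ⧸ Λ} (hu : IsHolomorphicMap (projVar P) Λ u)
    (hnc : ∀ x ∈ projVar P, IsNCPoint (projVar P) Λ u x) : NC (coneE P) Λ (uE Λ u) := by
  intro x hx
  obtain ⟨b, -, σ, τ, i, j, hi, hg, h0, hev⟩ := isNC_of hP hS hnc hx
  obtain ⟨χ, ρ, i', j', hU, hq, hmon, -⟩ := Pool.Agent.H62.EL.exists_nc_chart (isCone_transport (LE N) hS) (torusMap hP hu)
    (b := b) ⟨σ, τ, i, j, hg, h0, by omega, hev⟩ one_pos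
  refine ⟨χ, b, (ρ : ℂ), i', j', hU, hq, by exact_mod_cast hmon.pos.ne', hmon.ij, fun p hp => ?_⟩
  have := hmon.lift p hp
  unfold Pool.Agent.H62.EL.mo at this
  rwa [← mul_assoc] at this

variable [P.IsPrime]

/-- a pluricanonical form on the surface without zeros outside a hypersurface section -/
theorem exists_good_form {z : Fin 2 → FunField P} (hP : Homog P) (hz : IsTranscendenceBasis ℂ z)
    (hsm : ∀ y : Fin (N + 1) → ℂ, y ≠ 0 → (∀ Q ∈ P, eval y Q = 0) → Module.finrank ℂ (conTan P y) ≤ 3) (hgt : GT P 2) :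
    ∃ (M : ℕ) (Ω : Form (coneE P) M 1) (q : EN N → ℂ) (d : ℕ), 1 ≤ M ∧ (∀ x, AnalyticAt ℂ q x) ∧
      (∀ (c : ℂ) (x : EN N), q (c • x) = c ^ d * q x) ∧ (∀ x ∈ coneE P, ¬ ∀ᶠ y in 𝓝 x, y ∈ coneE P → q y = 0) ∧
      Ω.NoZeroOff {x | x ∈ coneE P ∧ q x = 0} := by
  have hS : Surface (cone P) := Pool.Agent.H13.SM.surface_cone hP hz fun y hy => hsm y hy.1 hy.2
  have hLGT : Pool.Agent.H62.FC.LogGeneralType P ∅ 2 := by
    have h1 : (Pool.Agent.H62.FC.OnBoundary P ∅ (w := 2)) = fun _ => False := by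
      funext E
      apply propext
      constructor
      · rintro ⟨j, -, -, i, hi, -⟩
        exact absurd hi (Finset.notMem_empty i)
      · exact False.elim
    unfold Pool.Agent.H62.FC.LogGeneralType
    rw [h1]
    exact hgt
  obtain ⟨M, Om, D₀, Q₀, hM, hQ₀, hQ₀P, hOm, hnz⟩ := Pool.Agent.H68.KR.exists_form_of_smooth hP hz (fun y hy hyP => hsm y hy hyP) hLGT
  have hOm' : IsForm (cone P) M 1 Om := hOm
  refine ⟨M, formT (LE N) hOm', fun y => eval ((LE N).symm y) Q₀, D₀, hM, ?_, ?_, ?_, ?_⟩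
  · intro y
    have h1 : AnalyticAt ℂ (fun x : Fin (N + 1) → ℂ => eval x Q₀) ((LE N).symm y) := by
      have := AnalyticAt.aeval_mvPolynomial (𝕜 := ℂ) (A := ℂ) (f := fun (x : Fin (N + 1) → ℂ) i => x i) (z := (LE N).symm y)
        (fun i => (ContinuousLinearMap.proj (R := ℂ) (φ := fun _ : Fin (N + 1) => ℂ) i).analyticAt _) Q₀
      simpa [MvPolynomial.aeval_eq_eval] using this
    exact AnalyticAt.comp (g := fun x : Fin (N + 1) → ℂ => eval x Q₀) (f := fun y : EN N => (LE N).symm y) h1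
      (((LE N).symm : EN N →L[ℂ] (Fin (N + 1) → ℂ)).analyticAt y)
  · intro c x
    show eval ((LE N).symm (c • x)) Q₀ = c ^ D₀ * eval ((LE N).symm x) Q₀
    rw [map_smul, eval_smul_form hQ₀]
  · intro x hx hev
    obtain ⟨σ, τ, hc, h0⟩ := hS.chart ((LE N).symm x) hx
    have h1 := Pool.Agent.H13.SM.frequently_ne_zero hP hz (fun y hy => hsm y hy.1 hy.2) hc hQ₀ hQ₀P
    apply h1
    have h2 : Tendsto (fun p => (LE N) (σ p)) (𝓝 (0 : ℂ × ℂ)) (𝓝 x) := by
      have h3 : ContinuousAt (fun p => (LE N) (σ p)) 0 := (LE N).continuous.continuousAt.comp hc.σ_an.continuousAt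
      have h4 := h3.tendsto
      rw [h0, ContinuousLinearEquiv.apply_symm_apply] at h4
      exact h4
    filter_upwards [h2.eventually hev, hc.σ_mem] with p hp hp'
    have h5 : (LE N) (σ p) ∈ coneE P := by
      show (LE N).symm ((LE N) (σ p)) ∈ cone P
      rw [ContinuousLinearEquiv.symm_apply_apply]
      exact hp'
    have h6 := hp h5
    rw [ContinuousLinearEquiv.symm_apply_apply] at h6
    simpa using h6
  · intro x hx hxT v w hv hw hind
    refine hnz ((LE N).symm x) hx ?_ _ (tan_transport (LE N) hv) _ (tan_transport (LE N) hw) ?_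
    · rintro ⟨h1, h2⟩
      exact hxT ⟨hx, h2⟩
    · have h3 := hind.map' ((LE N).symm : EN N →ₗ[ℂ] (Fin (N + 1) → ℂ)) (LinearMap.ker_eq_bot.2 (LE N).symm.injective)
      have h4 : (((LE N).symm : EN N →ₗ[ℂ] (Fin (N + 1) → ℂ)) ∘ ![x, v, w] : Fin 3 → Fin (N + 1) → ℂ) =
          ![(LE N).symm x, (LE N).symm v, (LE N).symm w] := by
        funext i
        fin_cases i <;> rfl
      rw [h4] at h3
      exact h3

/-- **The bad values**, with the regularity of the other values -/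
theorem exists_bad_reg {z : Fin 2 → FunField P} (hP : Homog P) (hz : IsTranscendenceBasis ℂ z)
    (hsm : ∀ y : Fin (N + 1) → ℂ, y ≠ 0 → (∀ Q ∈ P, eval y Q = 0) → Module.finrank ℂ (conTan P y) ≤ 3) (hgt : GT P 2)
    (hΛ : Lat Λ) {u : PN N → ℂ ⧸ Λ} (hu : IsHolomorphicMap (projVar P) Λ u) (hnc : ∀ x ∈ projVar P, IsNCPoint (projVar P) Λ u x) :
    ∃ B : Set ℂ, (∀ b ∈ B, ∀ l ∈ Λ, b + l ∈ B) ∧ (∃ δ : ℝ, 0 < δ ∧ ∀ b ∈ B, ∀ b' ∈ B, b ≠ b' → δ ≤ ‖b - b'‖) ∧
      (∀ x ∈ coneE P, uE Λ u x ∉ B → ∃ w, DU (coneE P) Λ (uE Λ u) x w 1) ∧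
      ∀ F : ℂ → EN N, Differentiable ℂ F → (∀ z, F z ∈ coneE P) → (∀ z w, uE Λ u (F z) - uE Λ u (F w) ∈ Λ) →
        (∃ z w, ∀ c : ℂ, F z ≠ c • F w) → uE Λ u (F 0) ∈ B := by
  have hS : Surface (cone P) := Pool.Agent.H13.SM.surface_cone hP hz fun y hy => hsm y hy.1 hy.2
  have hX := isCone_transport (LE N) hS
  have hch := charts hS
  have huE := torusMap hP hu
  obtain ⟨M, Ω, q, d, hM, han, hhom, hthin, hΩ⟩ := exists_good_form hP hz hsm hgt
  have hinv : ∀ c ∈ Bad (coneE P) Λ (uE Λ u) q, ∀ l ∈ Λ, c + l ∈ Bad (coneE P) Λ (uE Λ u) q := fun c hc l hl => Bad.add hc hl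
  refine ⟨Bad (coneE P) Λ (uE Λ u) q, hinv, separated hΛ hinv (bad_isolated hX huE hΛ (nc_of hP hS hu hnc) han hhom hthin), ?_, ?_⟩
  · intro x hx hB
    exact Bad.reg hB x hx (by rw [sub_self]; exact Λ.zero_mem)
  · intro F hF hFX hFu hne
    by_contra hB
    obtain ⟨z, w, hzw⟩ := hne
    obtain ⟨a, ha⟩ := vertical_const hX hch huE hΛ hM Ω hΩ hB hF hFX (fun z => hFu z 0) z w
    exact hzw a ha

/-- **The bad values.** -/
theorem exists_bad {z : Fin 2 → FunField P} (hP : Homog P) (hz : IsTranscendenceBasis ℂ z)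
    (hsm : ∀ y : Fin (N + 1) → ℂ, y ≠ 0 → (∀ Q ∈ P, eval y Q = 0) → Module.finrank ℂ (conTan P y) ≤ 3) (hgt : GT P 2)
    (hΛ : Lat Λ) {u : PN N → ℂ ⧸ Λ} (hu : IsHolomorphicMap (projVar P) Λ u) (hnc : ∀ x ∈ projVar P, IsNCPoint (projVar P) Λ u x) :
    ∃ B : Set ℂ, (∀ b ∈ B, ∀ l ∈ Λ, b + l ∈ B) ∧ (∃ δ : ℝ, 0 < δ ∧ ∀ b ∈ B, ∀ b' ∈ B, b ≠ b' → δ ≤ ‖b - b'‖) ∧
      ∀ F : ℂ → EN N, Differentiable ℂ F → (∀ z, F z ∈ coneE P) → (∀ z w, uE Λ u (F z) - uE Λ u (F w) ∈ Λ) →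
        (∃ z w, ∀ c : ℂ, F z ≠ c • F w) → ∃ b ∈ B, uE Λ u (F 0) - b ∈ Λ := by
  obtain ⟨B, h1, h2, -, h3⟩ := exists_bad_reg hP hz hsm hgt hΛ hu hnc
  refine ⟨B, h1, h2, fun F hF hFX hFu hne => ⟨_, h3 F hF hFX hFu hne, ?_⟩⟩
  rw [sub_self]
  exact Λ.zero_mem

end Pool.Agent.EG
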