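import Pool.Agent.EG.HyDef
import Pool.Agent.H62.EF.Loc

/-!
# EG HyAn: the form on the derivative of a vertical curve is holomorphic

Let `x ∈ X`, `DU X Λ u x w₀ 1`, and let `χ, υ, s` be as in `exists_adm` (`x ∈ χ.U`, `χ.q x = 0`).  `det2_eq`: if `l : ℂ × ℂ →L[ℂ] ℂ`, `l ≠ 0`, `l α = 0` and `l β = l β'` then `det2 α β = det2 α β'`  (`l γ = 0`, `γ = β - β'`; `l v = v.1 * l (1, 0) + v.2 * l (0, 1)`, and
the system `α.1 l₁ + α.2 l₂ = 0`, `γ.1 l₁ + γ.2 l₂ = 0` has the solution `(l₁, l₂) ≠ 0`, so `det2 α γ = 0`).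
`form_chart` (see `Tfl_form` in `H62/EF/Tfl.lean`): `Ω (σ p; dσ e + a • σ p, dσ e' + a' • σ p) = det2 e e' ^ M * aCoef Ω χ p`.

`form_well`: `x = a • χ.σ 0` (`χ.surj`), so `DU X Λ u (χ.σ 0) (a⁻¹ • v) 0` etc. (`DU.smul`); `DU.chart` (with `p = 0`): `a⁻¹ • v = dσ e + ..`, `a⁻¹ • w = dσ e₁ + ..`, `a⁻¹ • w' = dσ e₂ + ..`, `dυ e = 0`, `dυ e₁ = dυ e₂ = 1`; `Form.scale` (with the factor `a⁻¹`), `form_chart`
and `det2_eq` give the claim.

`vert_an`: `p z = χ.q (G z)` is analytic at `z₀`, `p z₀ = 0`.  Near `z₀`: `G z ∈ χ.U`, `p z ∈ ball 0 s`, `G z = A z • χ.σ (p z)` with `A z ≠ 0` analytic (as in the proof of `chart_gen` in `H62/EF/DUl.lean`: `A z = L (G z) / L (χ.σ (p z))`, `L = innerSL ℂ (χ.σ 0)`).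
So `(A z)⁻¹ • deriv G z = dσ_{p z} (deriv p z) + (..) • χ.σ (p z)`.  `υ (p z)` is constant near `z₀` (`υ (p z) - c ∈ Λ`, by `hGu`, `hu.smul`, `Adm.lift`; continuous: `Lat.const` on a small ball), so `fderiv ℂ υ (p z) (deriv p z) = 0` for `z` near `z₀`.
Let `e₁` be a vector with `fderiv ℂ υ 0 e₁ = 1` (`Adm.ne`); near `z₀` `fderiv ℂ υ (p z) e₁ ≠ 0`.  Put `V z = (det2 (deriv p z) e₁ / fderiv ℂ υ (p z) e₁) ^ M • (aCoef Ω χ (p z) • χ.σ (p z))`: analytic at `z₀` (`aCoef_an`).  For `w` with `DU X Λ u (G z) w 1`: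
`(A z)⁻¹ • w = dσ e' + .. `, `dυ e' = 1` (`DU.smul`, `DU.chart`), so (`Form.scale`) `Ω (G z; deriv G z, w) = (A z)⁻¹ * Ω (σ; (A z)⁻¹ • deriv G z, (A z)⁻¹ • w) = (A z)⁻¹ * det2 (deriv p z) e' ^ M * aCoef`, and `det2 (deriv p z) e' = det2 (deriv p z) ((fderiv ℂ υ (p z) e₁)⁻¹ • e₁)`
(`det2_eq`, both have `dυ = 1`); times `G z = A z • χ.σ (p z)` this is `V z`.
-/

set_option autoImplicit false

open Topology Filter Metric

namespace Pool.Agent.EG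

open Pool.Agent.H36.BP (EN fs wd)
open Pool.Agent.H14.PP (IsCone Chart Form Tan aCoef)
open Pool.Agent.H62.EF

variable {N M : ℕ} {X : Set (EN N)} {Λ : AddSubgroup ℂ} {u q : EN N → ℂ}

private theorem an_lin {V : Type*} [AddCommGroup V] [Module ℂ V] [TopologicalSpace V] (l : ℂ × ℂ →L[ℂ] V) (e : ℂ × ℂ) :
    l e = e.1 • l (1, 0) + e.2 • l (0, 1) := by
  have h1 : e = e.1 • ((1 : ℂ), (0 : ℂ)) + e.2 • ((0 : ℂ), (1 : ℂ)) := by
    ext <;> simp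
  conv_lhs => rw [h1]
  rw [map_add, map_smul, map_smul]

theorem det2_eq {l : ℂ × ℂ →L[ℂ] ℂ} (hl : l ≠ 0) {α β β' : ℂ × ℂ} (hα : l α = 0) (hβ : l β = l β') : det2 α β = det2 α β' := by
  have h1 : l (β - β') = 0 := by rw [map_sub, hβ, sub_self]
  have key : ∀ γ : ℂ × ℂ, l γ = 0 → det2 α γ = 0 := by
    intro γ hγ
    rw [an_lin l] at hα hγ
    simp only [smul_eq_mul] at hα hγ
    unfold det2
    by_cases ha : l (1, 0) = 0
    · by_cases hb : l (0, 1) = 0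
      · exfalso
        apply hl
        ext
        · simpa using ha
        · simpa using hb
      · rw [ha, mul_zero, zero_add] at hα hγ
        rw [(mul_eq_zero.1 hα).resolve_right hb, (mul_eq_zero.1 hγ).resolve_right hb]
        ring
    · have h2 : l (1, 0) * (α.1 * γ.2 - α.2 * γ.1) = 0 := by
        linear_combination γ.2 * hα - α.2 * hγ
      exact (mul_eq_zero.1 h2).resolve_left ha
  have h2 := key _ h1
  unfold det2 at h2 ⊢
  simp only [Prod.fst_sub, Prod.snd_sub] at h2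
  linear_combination h2

/-- the form in a chart -/
private theorem form_chart (Ω : Form X M 1) (χ : Chart X) {p : ℂ × ℂ} (hp : p ∈ ball (0 : ℂ × ℂ) 2) (e e' : ℂ × ℂ) (a a' : ℂ) :
    Ω.toFun (χ.σ p) (fderiv ℂ χ.σ p e + a • χ.σ p) (fderiv ℂ χ.σ p e' + a' • χ.σ p) = det2 e e' ^ M * aCoef Ω χ p := by
  have hX : χ.σ p ∈ X := (χ.σ_mem p hp).1
  have hT : ∀ e : ℂ × ℂ, Tan X (χ.σ p) (fderiv ℂ χ.σ p e) := by
    intro e
    have hl : HasDerivAt (fun z : ℂ => p + z • e) e 0 := by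
      have h2 := ((hasDerivAt_id (0 : ℂ)).smul_const e).const_add p
      simpa using h2
    have hla : AnalyticAt ℂ (fun z : ℂ => p + z • e) 0 :=
      analyticAt_const.add (analyticAt_id.smul analyticAt_const)
    have h0 : p + (0 : ℂ) • e = p := by rw [zero_smul, add_zero]
    have hev : ∀ᶠ z in 𝓝 (0 : ℂ), p + z • e ∈ ball (0 : ℂ × ℂ) 2 := by
      have h3 : Tendsto (fun z : ℂ => p + z • e) (𝓝 (0 : ℂ)) (𝓝 p) := by
        have h4 := hla.continuousAt.tendsto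
        rwa [h0] at h4
      exact h3.eventually (isOpen_ball.mem_nhds hp)
    have hσ : AnalyticAt ℂ χ.σ (p + (0 : ℂ) • e) := by
      rw [h0]
      exact χ.σ_an p hp
    refine ⟨fun z => χ.σ (p + z • e), ⟨AnalyticAt.fun_comp hσ hla, ?_⟩, by simp, ?_⟩
    · filter_upwards [hev] with z hz
      exact (χ.σ_mem _ hz).1
    · have h5 := hσ.differentiableAt.hasFDerivAt.comp_hasDerivAt (0 : ℂ) hl
      rw [h0] at h5
      exact h5.deriv
  rw [Ω.add_smul _ hX _ _ (hT e) (hT e')]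
  rw [an_lin (fderiv ℂ χ.σ p) e, an_lin (fderiv ℂ χ.σ p) e', Ω.det _ hX _ _ (hT _) (hT _)]
  rfl

/-- the form at a multiple of a point of a chart -/
private theorem form_mul (hX : IsCone X) (Ω : Form X M 1) (χ : Chart X) {p : ℂ × ℂ} (hp : p ∈ ball (0 : ℂ × ℂ) 2) {x v w : EN N} {A : ℂ}
    (hA : A ≠ 0) (hx : x = A • χ.σ p) (hv : Tan X x v) (hw : Tan X x w) {e e' : ℂ × ℂ} {a a' : ℂ}
    (hve : A⁻¹ • v = fderiv ℂ χ.σ p e + a • χ.σ p) (hwe : A⁻¹ • w = fderiv ℂ χ.σ p e' + a' • χ.σ p) :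
    Ω.toFun x v w = A⁻¹ * (det2 e e' ^ M * aCoef Ω χ p) := by
  have hxX : x ∈ X := by
    rw [hx]
    exact hX.smul_mem _ (χ.σ_mem p hp).1 A hA
  have h1 := Ω.scale x hxX v w hv hw A⁻¹ (inv_ne_zero hA)
  rw [← h1, pow_one, hve, hwe]
  have h2 : A⁻¹ • x = χ.σ p := by rw [hx, smul_smul, inv_mul_cancel₀ hA, one_smul]
  rw [h2, form_chart Ω χ hp]

theorem form_well (hX : IsCone X) (hch : Charts X) (hu : TorusMap X Λ u) (hΛ : Lat Λ) (Ω : Form X M 1) {x v w w' : EN N} (hx : x ∈ X)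
    (hv : DU X Λ u x v 0) (hw : DU X Λ u x w 1) (hw' : DU X Λ u x w' 1) : Ω.toFun x v w = Ω.toFun x v w' := by
  obtain ⟨χ, υ, s, h1, h2, h3⟩ := exists_adm hX hch hu hΛ hx one_ne_zero hw
  obtain ⟨-, c, hc, h4⟩ := χ.surj x hx h1
  rw [h2] at h4
  have h0 : (0 : ℂ × ℂ) ∈ ball (0 : ℂ × ℂ) s := mem_ball_self h3.pos
  have h02 : (0 : ℂ × ℂ) ∈ ball (0 : ℂ × ℂ) 2 := mem_ball_self (by norm_num)
  have h5 : c⁻¹ • x = χ.σ 0 := by
    conv_lhs => rw [h4]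
    rw [smul_smul, inv_mul_cancel₀ hc, one_smul]
  have h6 := hv.smul hX hu (inv_ne_zero hc)
  have h7 := hw.smul hX hu (inv_ne_zero hc)
  have h8 := hw'.smul hX hu (inv_ne_zero hc)
  rw [h5] at h6 h7 h8
  obtain ⟨e, a, he, he0⟩ := DU.chart hX hu hΛ h3 h0 h6
  obtain ⟨e₁, a₁, he₁, he₁'⟩ := DU.chart hX hu hΛ h3 h0 h7
  obtain ⟨e₂, a₂, he₂, he₂'⟩ := DU.chart hX hu hΛ h3 h0 h8
  rw [form_mul hX Ω χ h02 hc h4 hv.tan hw.tan he he₁, form_mul hX Ω χ h02 hc h4 hv.tan hw'.tan he he₂,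
    det2_eq (h3.ne 0 h0) he0 (he₁'.trans he₂'.symm)]

theorem vert_an (hX : IsCone X) (hch : Charts X) (hu : TorusMap X Λ u) (hΛ : Lat Λ) (Ω : Form X M 1) {c : ℂ} {G : ℂ → EN N} {z₀ : ℂ}
    (hG : AnalyticAt ℂ G z₀) (hGX : ∀ᶠ z in 𝓝 z₀, G z ∈ X ∧ u (G z) - c ∈ Λ) {w₀ : EN N} (hw₀ : DU X Λ u (G z₀) w₀ 1) :
    ∃ V : ℂ → EN N, AnalyticAt ℂ V z₀ ∧ ∀ᶠ z in 𝓝 z₀, ∀ w, DU X Λ u (G z) w 1 → V z = Ω.toFun (G z) (deriv G z) w • G z := by
  have hx : G z₀ ∈ X := hGX.self_of_nhds.1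
  obtain ⟨χ, υ, s, hU, hq0, hadm⟩ := exists_adm hX hch hu hΛ hx one_ne_zero hw₀
  have h0s : (0 : ℂ × ℂ) ∈ ball (0 : ℂ × ℂ) s := mem_ball_self hadm.pos
  have h02 : (0 : ℂ × ℂ) ∈ ball (0 : ℂ × ℂ) 2 := mem_ball_self two_pos
  have hs2 : ball (0 : ℂ × ℂ) s ⊆ ball 0 2 := ball_subset_ball hadm.lt.le
  set p : ℂ → ℂ × ℂ := fun z => χ.q (G z) with hpdef
  have hpan : AnalyticAt ℂ p z₀ := AnalyticAt.fun_comp (χ.q_an _ hU) hG
  have hp0 : p z₀ = 0 := hq0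
  have hpt : Tendsto p (𝓝 z₀) (𝓝 0) := by
    have := hpan.continuousAt.tendsto
    rwa [hp0] at this
  have hUev : ∀ᶠ z in 𝓝 z₀, G z ∈ χ.U := hG.continuousAt.tendsto.eventually (χ.isOpen_U.mem_nhds hU)
  have hpev : ∀ᶠ z in 𝓝 z₀, p z ∈ ball (0 : ℂ × ℂ) s := hpt.eventually (isOpen_ball.mem_nhds h0s)
  -- the factor
  have hσ0 : χ.σ 0 ≠ 0 := fun h => hX.zero_notMem (h ▸ (χ.σ_mem 0 h02).1)
  obtain ⟨L, hL⟩ : ∃ L : EN N →L[ℂ] ℂ, L = innerSL ℂ (χ.σ 0) := ⟨_, rfl⟩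
  have hL0 : L (χ.σ 0) ≠ 0 := by
    rw [hL, innerSL_apply_apply]
    exact inner_self_ne_zero.2 hσ0
  have hσp : AnalyticAt ℂ (fun z => χ.σ (p z)) z₀ := by
    have h1 : AnalyticAt ℂ χ.σ (p z₀) := by
      rw [hp0]
      exact χ.σ_an 0 h02
    exact AnalyticAt.fun_comp h1 hpan
  have hnum : AnalyticAt ℂ (fun z => L (G z)) z₀ := AnalyticAt.fun_comp (L.analyticAt (G z₀)) hG
  have hden : AnalyticAt ℂ (fun z => L (χ.σ (p z))) z₀ := AnalyticAt.fun_comp (g := L) (f := fun z => χ.σ (p z)) (L.analyticAt _) hσp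
  have hden0 : L (χ.σ (p z₀)) ≠ 0 := by
    rw [hp0]
    exact hL0
  set A : ℂ → ℂ := fun z => L (G z) / L (χ.σ (p z)) with hA
  have hAan : AnalyticAt ℂ A z₀ := hnum.fun_div hden hden0
  have hAev : ∀ᶠ z in 𝓝 z₀, A z ≠ 0 ∧ G z = A z • χ.σ (p z) := by
    filter_upwards [hGX, hUev, hden.continuousAt.eventually_ne hden0] with z h1 h2 h3
    obtain ⟨-, a, ha, hza⟩ := χ.surj _ h1.1 h2
    have h4 : A z = a := by
      rw [hA]
      change L (G z) / L (χ.σ (χ.q (G z))) = a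
      have h5 : L (G z) = a * L (χ.σ (χ.q (G z))) := by
        conv_lhs => rw [hza]
        rw [map_smul, smul_eq_mul]
      rw [h5, mul_div_assoc, div_self h3, mul_one]
    rw [h4]
    exact ⟨ha, hza⟩
  -- the derivative of `G`
  have hder : ∀ᶠ z in 𝓝 z₀, ∃ a : ℂ, (A z)⁻¹ • deriv G z = fderiv ℂ χ.σ (p z) (deriv p z) + a • χ.σ (p z) := by
    filter_upwards [hAev.eventually_nhds, hpan.eventually_analyticAt, hAan.eventually_analyticAt, hpev] with z h1 h2 h3 h4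
    have h5 : G =ᶠ[𝓝 z] fun ζ => A ζ • χ.σ (p ζ) := by
      filter_upwards [h1] with ζ hζ using hζ.2
    have h6 : AnalyticAt ℂ χ.σ (p z) := χ.σ_an _ (hs2 h4)
    have h7 : HasDerivAt (fun ζ => χ.σ (p ζ)) (fderiv ℂ χ.σ (p z) (deriv p z)) z :=
      h6.differentiableAt.hasFDerivAt.comp_hasDerivAt z h2.differentiableAt.hasDerivAt
    have h8 : deriv G z = A z • fderiv ℂ χ.σ (p z) (deriv p z) + deriv A z • χ.σ (p z) := by
      rw [h5.deriv_eq]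
      exact (h3.differentiableAt.hasDerivAt.fun_smul h7).deriv
    have h9 : A z ≠ 0 := h1.self_of_nhds.1
    refine ⟨(A z)⁻¹ * deriv A z, ?_⟩
    rw [h8, smul_add, smul_smul, smul_smul, inv_mul_cancel₀ h9, one_smul]
  -- the function `υ` is constant along the curve
  have hvert : ∀ᶠ z in 𝓝 z₀, fderiv ℂ υ (p z) (deriv p z) = 0 := by
    have hυp : ∀ᶠ z in 𝓝 z₀, υ (p z) - c ∈ Λ := by
      filter_upwards [hAev, hGX, hpev] with z h1 h2 h3
      have h4 := hu.smul _ (χ.σ_mem _ (hs2 h3)).1 (A z) h1.1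
      rw [← h1.2] at h4
      have h5 := hadm.lift _ h3
      have h6 := Λ.sub_mem (Λ.sub_mem h2.2 h4) h5
      have h7 : u (G z) - c - (u (G z) - u (χ.σ (p z))) - (u (χ.σ (p z)) - υ (p z)) = υ (p z) - c := by ring
      rwa [h7] at h6
    obtain ⟨r, hr, hball⟩ := Metric.eventually_nhds_iff_ball.1 (hυp.and (hpev.and hpan.eventually_analyticAt))
    have hcont : ContinuousOn (fun z => υ (p z) - c) (ball z₀ r) := by
      intro z hz
      have h1 := hball z hz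
      have h2 : ContinuousAt υ (p z) := (hadm.an _ h1.2.1).continuousAt
      exact ((ContinuousAt.comp (f := p) h2 h1.2.2.continuousAt).sub continuousAt_const).continuousWithinAt
    have hconst := hΛ.const (isPreconnected_ball) hcont (fun z hz => (hball z hz).1)
    filter_upwards [isOpen_ball.mem_nhds (mem_ball_self hr : z₀ ∈ ball z₀ r)] with z hz
    have h1 := hball z hz
    have h2 : HasDerivAt (fun ζ => υ (p ζ)) (fderiv ℂ υ (p z) (deriv p z)) z :=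
      (hadm.an _ h1.2.1).differentiableAt.hasFDerivAt.comp_hasDerivAt z h1.2.2.differentiableAt.hasDerivAt
    have h3 : (fun ζ => υ (p ζ)) =ᶠ[𝓝 z] fun _ => υ (p z) := by
      filter_upwards [isOpen_ball.mem_nhds hz] with ζ hζ
      have := hconst ζ hζ z hz
      linear_combination this
    rw [← h2.deriv, h3.deriv_eq, deriv_const]
  -- a transversal vector
  obtain ⟨e₁, he₁⟩ : ∃ e₁, fderiv ℂ υ 0 e₁ ≠ 0 := by
    by_contra hcon
    push Not at hcon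
    exact hadm.ne 0 h0s (ContinuousLinearMap.ext hcon)
  have hυ' : AnalyticAt ℂ (fun z => fderiv ℂ υ (p z)) z₀ := by
    have h1 : AnalyticAt ℂ (fderiv ℂ υ) (p z₀) := by
      rw [hp0]
      exact (hadm.an 0 h0s).fderiv
    exact AnalyticAt.fun_comp h1 hpan
  have hυe : AnalyticAt ℂ (fun z => fderiv ℂ υ (p z) e₁) z₀ := by
    exact AnalyticAt.fun_comp (g := fun l : ℂ × ℂ →L[ℂ] ℂ => l e₁) (f := fun z => fderiv ℂ υ (p z))
      ((ContinuousLinearMap.apply ℂ ℂ e₁).analyticAt _) hυ'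
  have hυe0 : fderiv ℂ υ (p z₀) e₁ ≠ 0 := by
    rw [hp0]
    exact he₁
  have hdp : AnalyticAt ℂ (deriv p) z₀ := hpan.deriv
  have hd2 : AnalyticAt ℂ (fun z => det2 (deriv p z) e₁) z₀ := by
    unfold det2
    have h1 : AnalyticAt ℂ (fun z => (deriv p z).1) z₀ := AnalyticAt.fun_comp (g := Prod.fst) (f := deriv p) analyticAt_fst hdp
    have h2 : AnalyticAt ℂ (fun z => (deriv p z).2) z₀ := AnalyticAt.fun_comp (g := Prod.snd) (f := deriv p) analyticAt_snd hdp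
    exact (h1.mul analyticAt_const).sub (h2.mul analyticAt_const)
  have ha : AnalyticAt ℂ (fun z => aCoef Ω χ (p z)) z₀ := by
    have h1 : AnalyticAt ℂ (aCoef Ω χ) (p z₀) := by
      rw [hp0]
      exact aCoef_an Ω χ h02
    exact AnalyticAt.fun_comp h1 hpan
  refine ⟨fun z => ((det2 (deriv p z) e₁ / fderiv ℂ υ (p z) e₁) ^ M * aCoef Ω χ (p z)) • χ.σ (p z), ?_, ?_⟩
  · exact (((hd2.fun_div hυe hυe0).fun_pow M).fun_mul ha).fun_smul hσp
  filter_upwards [hAev, hder, hvert, hυe.continuousAt.eventually_ne hυe0, hpev, hGX.eventually_nhds, hG.eventually_analyticAt]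
    with z h1 h2 h3 h4 h5 h6 h7 w hw
  obtain ⟨hA0, hGA⟩ := h1
  obtain ⟨a, ha'⟩ := h2
  have hv : DU X Λ u (G z) (deriv G z) 0 := DU_vert h7 h6
  have h8 : (A z)⁻¹ • G z = χ.σ (p z) := by
    conv_lhs => rw [hGA]
    rw [smul_smul, inv_mul_cancel₀ hA0, one_smul]
  have h9 := hw.smul hX hu (inv_ne_zero hA0)
  rw [h8] at h9
  obtain ⟨e', a', he', he''⟩ := DU.chart hX hu hΛ hadm h5 h9
  rw [form_mul hX Ω χ (hs2 h5) hA0 hGA hv.tan hw.tan ha' he']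
  have h10 : det2 (deriv p z) e' = det2 (deriv p z) e₁ / fderiv ℂ υ (p z) e₁ := by
    have h11 : det2 (deriv p z) e' = det2 (deriv p z) ((fderiv ℂ υ (p z) e₁)⁻¹ • e₁) := by
      refine det2_eq (hadm.ne _ h5) h3 ?_
      rw [he'', map_smul, smul_eq_mul, inv_mul_cancel₀ h4]
    rw [h11]
    unfold det2
    simp only [Prod.smul_fst, Prod.smul_snd, smul_eq_mul]
    ring
  rw [h10]
  conv_rhs => rw [hGA]
  rw [smul_smul]
  congr 1
  field_simp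

end Pool.Agent.EG
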