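import Pool.Agent.EG.HyDef
import Pool.Agent.H62.EF.Loc

/-!
# EG HyBd: the length of the form is bounded on the fibre over a regular value

`TfAt_bound`: suppose not: for every `n` there are `x n ∈ X`, `u (x n) - c ∈ Λ`, `t n` with `TfAt Λ u Ω (x n) (t n)`, `n < t n`.  `pr '' X` is compact (`isCompact_pr`), so along `𝒰 = hyperfilter ℕ` `pr (x n) → pr x₀`, `x₀ ∈ X` (`IsCompact.ultrafilter_le_nhds` for
`𝒰.map (pr ∘ x)`), `u x₀ - c ∈ Λ` (`mem_fibre_of_tendsto`).  By `hreg` there is `w` with `DU X Λ u x₀ w 1`; take `exists_loc`: `χ, υ, s, δ, Q'` with `LocData Λ u χ υ s (pr x₀) δ Q'`.  `TF χ υ Ω` is continuous on `ball 0 s` (`TF_cont`), so bounded by some `C` on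
`closedBall 0 (s / 2)`.  For almost all `n` `dist (pr (x n)) (pr x₀) ≤ δ`, so `χ.q (x n) ∈ closedBall 0 (s / 2)` (`LocData.mem`), `That X Λ u Ω (pr (x n)) = TF χ υ Ω (χ.q (x n)) ≤ C` (`LocData.That_eq`) and `= t n` (`That_eq`), contradiction for `n > C`.
-/

set_option autoImplicit false

open Topology Filter Metric

namespace Pool.Agent.EG

open Pool.Agent.H36.BP (EN fs wd)
open Pool.Agent.H14.PP (IsCone Chart Form Tan)
open Pool.Agent.H62.EF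

variable {N M : ℕ} {X : Set (EN N)} {Λ : AddSubgroup ℂ} {u q : EN N → ℂ}

theorem TfAt_bound (hX : IsCone X) (hch : Charts X) (hu : TorusMap X Λ u) (hΛ : Lat Λ) (Ω : Form X M 1) {c : ℂ} (hreg : Reg X Λ u c) :
    ∃ C : ℝ, 0 ≤ C ∧ ∀ x ∈ X, u x - c ∈ Λ → ∀ t, TfAt Λ u Ω x t → t ≤ C := by
  by_contra hcon
  push Not at hcon
  have h1 : ∀ n : ℕ, ∃ x ∈ X, u x - c ∈ Λ ∧ ∃ t, TfAt Λ u Ω x t ∧ (n : ℝ) < t := fun n => hcon n n.cast_nonneg
  choose x hxX hxu t ht htn using h1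
  have hcpt := isCompact_pr hX
  have h2 : (((hyperfilter ℕ : Ultrafilter ℕ).map (fun n => pr (x n)) : Ultrafilter _) : Filter _) ≤ 𝓟 (pr '' X) := by
    rw [Filter.le_principal_iff]
    exact Ultrafilter.mem_map.2 (Filter.univ_mem' fun n => ⟨x n, hxX n, rfl⟩)
  obtain ⟨y₀, hy₀, hlim⟩ := hcpt.ultrafilter_le_nhds ((hyperfilter ℕ : Ultrafilter ℕ).map fun n => pr (x n)) h2
  obtain ⟨x₀, hx₀, rfl⟩ := hy₀
  have hlim' : Tendsto (fun n => pr (x n)) ((hyperfilter ℕ : Ultrafilter ℕ) : Filter ℕ) (𝓝 (pr x₀)) := hlim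
  have hu0 : u x₀ - c ∈ Λ := mem_fibre_of_tendsto hX hu hΛ (c := fun _ => c)
    (Eventually.of_forall fun n => ⟨hxX n, hxu n⟩) hx₀ hlim' tendsto_const_nhds
  obtain ⟨w, hw⟩ := hreg x₀ hx₀ hu0
  obtain ⟨χ, υ, s, δ, Q, hloc⟩ := exists_loc hX hch hu hΛ hx₀ hw
  have hcont : ContinuousOn (TF χ υ Ω) (closedBall 0 (s / 2)) :=
    (TF_cont hX Ω hloc.adm).mono (closedBall_subset_ball (by linarith [hloc.adm.pos]))
  obtain ⟨C, hC⟩ := (isCompact_closedBall (0 : ℂ × ℂ) (s / 2)).bddAbove_image hcont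
  have h3 : ∀ᶠ n in ((hyperfilter ℕ : Ultrafilter ℕ) : Filter ℕ), dist (pr (x n)) (pr x₀) < δ :=
    hlim'.eventually (ball_mem_nhds _ hloc.pos)
  have h4 : ∀ᶠ n : ℕ in ((hyperfilter ℕ : Ultrafilter ℕ) : Filter ℕ), C < (n : ℝ) := by
    have h5 : ∀ᶠ n : ℕ in atTop, C < (n : ℝ) := tendsto_natCast_atTop_atTop.eventually_gt_atTop C
    exact Nat.hyperfilter_le_atTop h5
  obtain ⟨n, hn1, hn2⟩ := (h3.and h4).exists
  have h5 := hloc.That_eq hX hch hu hΛ Ω (hxX n) hn1.le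
  have h6 := That_eq hX hch hu hΛ (hxX n) (ht n)
  have h7 : TF χ υ Ω (χ.q (x n)) ≤ C := hC ⟨_, (hloc.mem (x n) (hxX n) hn1.le).2.2, rfl⟩
  have h8 := htn n
  rw [h6] at h5
  linarith

end Pool.Agent.EG
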