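import Pool.Agent.H62.EF.TorA
import Pool.Agent.H62.EF.DUl
import Pool.Agent.H36.BP.Brody

/-!
# EG HyDef: regular values, normal crossings, bad values
-/

set_option autoImplicit false

open Topology Filter Metric

namespace Pool.Agent.EG

open Pool.Agent.H36.BP (EN fs wd)
open Pool.Agent.H14.PP (IsCone Chart Form Tan)
open Pool.Agent.H62.EF (Lat TorusMap Charts DU pr pr_smul pr_eq_iff near_of_pr continuousAt_pr)

variable {N : ℕ}

/-- `c` is a regular value of `u` -/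
def Reg (X : Set (EN N)) (Λ : AddSubgroup ℂ) (u : EN N → ℂ) (c : ℂ) : Prop :=
  ∀ x ∈ X, u x - c ∈ Λ → ∃ w : EN N, DU X Λ u x w 1

/-- the fibres of `u` are normal crossing divisors, with multiplicities -/
def NC (X : Set (EN N)) (Λ : AddSubgroup ℂ) (u : EN N → ℂ) : Prop :=
  ∀ x ∈ X, ∃ (χ : Chart X) (c κ : ℂ) (a b : ℕ), x ∈ χ.U ∧ χ.q x = 0 ∧ κ ≠ 0 ∧ 1 ≤ a + b ∧
    ∀ p ∈ ball (0 : ℂ × ℂ) 2, u (χ.σ p) - (c + κ * p.1 ^ a * p.2 ^ b) ∈ Λ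

/-- `q` vanishes along a germ of a curve in the fibre over `c` -/
def BadQ (X : Set (EN N)) (Λ : AddSubgroup ℂ) (u q : EN N → ℂ) (c : ℂ) : Prop :=
  ∃ γ : ℂ → EN N, AnalyticAt ℂ γ 0 ∧ (∀ᶠ z in 𝓝 (0 : ℂ), γ z ∈ X ∧ u (γ z) - c ∈ Λ ∧ q (γ z) = 0) ∧ 0 < wd (γ 0) (deriv γ 0)

/-- the bad values -/
def Bad (X : Set (EN N)) (Λ : AddSubgroup ℂ) (u q : EN N → ℂ) : Set ℂ := {c | ¬ Reg X Λ u c ∨ BadQ X Λ u q c}

variable {X : Set (EN N)} {Λ : AddSubgroup ℂ} {u q : EN N → ℂ}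

theorem sub_iff {a c l : ℂ} (hl : l ∈ Λ) : a - (c + l) ∈ Λ ↔ a - c ∈ Λ := by
  constructor
  · intro h
    have := Λ.add_mem h hl
    rwa [show a - (c + l) + l = a - c by ring] at this
  · intro h
    have := Λ.sub_mem h hl
    rwa [show a - c - l = a - (c + l) by ring] at this

theorem Bad.add {c l : ℂ} (hc : c ∈ Bad X Λ u q) (hl : l ∈ Λ) : c + l ∈ Bad X Λ u q := by
  rcases hc with h | ⟨γ, h1, h2, h3⟩
  · left
    intro h'
    refine h fun x hx hux => h' x hx ((sub_iff hl).2 hux)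
  · right
    refine ⟨γ, h1, ?_, h3⟩
    filter_upwards [h2] with z hz
    exact ⟨hz.1, (sub_iff hl).2 hz.2.1, hz.2.2⟩

theorem Bad.reg {c : ℂ} (hc : c ∉ Bad X Λ u q) : Reg X Λ u c := by
  by_contra h
  exact hc (Or.inl h)

/-- the derivative of a curve in a fibre is vertical -/
theorem DU_vert {G : ℂ → EN N} {c z : ℂ} (hG : AnalyticAt ℂ G z) (hGX : ∀ᶠ ζ in 𝓝 z, G ζ ∈ X ∧ u (G ζ) - c ∈ Λ) :
    DU X Λ u (G z) (deriv G z) 0 := by
  have h0 : Tendsto (fun ζ : ℂ => z + ζ) (𝓝 0) (𝓝 z) := by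
    have h : Continuous fun ζ : ℂ => z + ζ := by fun_prop
    simpa using h.tendsto 0
  have hla : AnalyticAt ℂ (fun ζ : ℂ => z + ζ) 0 := analyticAt_const.add analyticAt_id
  have hGa : AnalyticAt ℂ G (z + 0) := by rwa [add_zero]
  refine ⟨fun ζ => G (z + ζ), fun _ => c, AnalyticAt.fun_comp hGa hla, ?_, by simp, ?_, analyticAt_const, ?_, deriv_const _ _⟩
  · filter_upwards [h0.eventually hGX] with ζ h using h.1
  · rw [deriv_comp_const_add, add_zero]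
  · filter_upwards [h0.eventually hGX] with ζ h using h.2

/-- the limit of points of the fibres over `c n` is in the fibre over the limit of `c n` -/
theorem mem_fibre_of_tendsto (hX : IsCone X) (hu : TorusMap X Λ u) (hΛ : Lat Λ) {ι : Type*} {l : Filter ι} [l.NeBot] {x : ι → EN N}
    {x₀ : EN N} {c : ι → ℂ} {c₀ : ℂ} (hx : ∀ᶠ n in l, x n ∈ X ∧ u (x n) - c n ∈ Λ) (hx₀ : x₀ ∈ X)
    (hlim : Tendsto (fun n => pr (x n)) l (𝓝 (pr x₀))) (hc : Tendsto c l (𝓝 c₀)) : u x₀ - c₀ ∈ Λ := by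
  refine hΛ.mem_of_close fun ε hε => ?_
  obtain ⟨δ, hδ, h⟩ := TorusMap.unif hX hu (half_pos hε)
  have h1 : ∀ᶠ n in l, dist (pr (x n)) (pr x₀) < δ := hlim.eventually (ball_mem_nhds _ hδ)
  have h2 : ∀ᶠ n in l, dist (c n) c₀ < ε / 2 := hc.eventually (ball_mem_nhds _ (half_pos hε))
  obtain ⟨n, ⟨h3, h4⟩, h5, h6⟩ := (hx.and (h1.and h2)).exists
  obtain ⟨m, hm, h7⟩ := h x₀ hx₀ (x n) h3 (by rw [dist_comm]; exact h5)
  refine ⟨m + (u (x n) - c n), Λ.add_mem hm h4, ?_⟩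
  have h8 : u x₀ - c₀ - (m + (u (x n) - c n)) = (u x₀ - u (x n) - m) + (c n - c₀) := by ring
  rw [h8]
  rw [dist_eq_norm] at h6
  calc _ ≤ ‖u x₀ - u (x n) - m‖ + ‖c n - c₀‖ := norm_add_le _ _
    _ < ε := by linarith

/-- a point whose projection is near the projection of `x₀` lies in the domain of a chart at `x₀`, near the centre -/
theorem near_chart (hX : IsCone X) (χ : Chart X) {x₀ : EN N} (hx₀ : x₀ ∈ X) (hU : x₀ ∈ χ.U) (hq : χ.q x₀ = 0) {ε : ℝ} (hε : 0 < ε) :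
    ∃ δ : ℝ, 0 < δ ∧ ∀ x ∈ X, dist (pr x) (pr x₀) < δ → x ∈ χ.U ∧ ‖χ.q x‖ < ε := by
  have hx0 : x₀ ≠ 0 := fun h => hX.zero_notMem (h ▸ hx₀)
  have h1 : ∀ᶠ x in 𝓝 x₀, x ∈ χ.U ∧ ‖χ.q x‖ < ε := by
    have h2 : Tendsto χ.q (𝓝 x₀) (𝓝 0) := by
      have := (χ.q_an x₀ hU).continuousAt.tendsto
      rwa [hq] at this
    have h3 : ∀ᶠ x in 𝓝 x₀, ‖χ.q x‖ < ε := by
      have := h2.eventually (ball_mem_nhds _ hε)
      filter_upwards [this] with x hx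
      rwa [dist_zero_right] at hx
    have h4 : ∀ᶠ x in 𝓝 x₀, x ∈ χ.U := χ.isOpen_U.mem_nhds hU
    exact h4.and h3
  obtain ⟨δ, hδ, h⟩ := near_of_pr hx0 h1
  refine ⟨δ, hδ, fun x hx hd => ?_⟩
  have hx' : x ≠ 0 := fun h => hX.zero_notMem (h ▸ hx)
  obtain ⟨c, hc, h4, h5⟩ := h x hx' hd
  have h6 : x = c⁻¹ • (c • x) := by rw [smul_smul, inv_mul_cancel₀ hc, one_smul]
  have h7 : x ∈ χ.U := by
    rw [h6]
    exact χ.smul_U _ h4 _ (inv_ne_zero hc)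
  refine ⟨h7, ?_⟩
  rwa [χ.q_smul x h7 c hc] at h5

end Pool.Agent.EG
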