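import Pool.Agent.EG.HyLvlA

/-!
# EG HyLvl: functions which vanish along germs of level sets of `x ^ a * y ^ b` near the origin

`level_set`.  Case `1 ≤ a`.  Otherwise for every `n` there is `π n` as in the statement with `‖π n 0‖ < 1 / (n + 1)`, `deriv (π n) 0 ≠ 0`.  Let `‖y‖ < 2`, `y ≠ 0`.  For large `n` `‖π n 0‖ ≤ ‖y‖`, so by `lvl_ab` (`1 ≤ b`) or `lvl_a` (`b = 0`; `x = (π n 0).1 ≠ 0`)
there is `x n ≠ 0` with `‖x n‖ ≤ ‖π n 0‖ < 1 / (n + 1)` and `Q (x n, y) = 0`.  So the function `x ↦ Q (x, y)`, analytic on `ball 0 2`, vanishes frequently in `𝓝[≠] 0`, so it is `0` on `ball 0 2`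
(`AnalyticOnNhd.eqOn_zero_of_preconnected_of_frequently_eq_zero`).  So `Q (x, y) = 0` for `‖x‖ < 2`, `0 < ‖y‖ < 2`; for `y = 0` by continuity of `Q` at `(x, 0)`.  This contradicts `h0` (norm of the product = maximum: `Prod.norm_def`).
Case `a = 0`, `1 ≤ b`: apply the first case to `Q ∘ Prod.swap`, `(b, a)` and `Prod.swap ∘ π` (`Prod.swap` is a continuous linear isometry of `ℂ × ℂ`).
-/

set_option autoImplicit false

open Topology Filter Metric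

namespace Pool.Agent.EG

private theorem HyLvl_fst {Q : ℂ × ℂ → ℂ} (hQ : ∀ p ∈ ball (0 : ℂ × ℂ) 2, AnalyticAt ℂ Q p) (h0 : ¬ ∀ᶠ p in 𝓝 (0 : ℂ × ℂ), Q p = 0) {a b : ℕ}
    (ha : 1 ≤ a) : ∃ δ : ℝ, 0 < δ ∧ ∀ π : ℂ → ℂ × ℂ, AnalyticAt ℂ π 0 → π 0 ∈ ball (0 : ℂ × ℂ) δ → (π 0).1 ^ a * (π 0).2 ^ b ≠ 0 →
      (∀ᶠ z in 𝓝 (0 : ℂ), (π z).1 ^ a * (π z).2 ^ b = (π 0).1 ^ a * (π 0).2 ^ b) → (∀ᶠ z in 𝓝 (0 : ℂ), Q (π z) = 0) → deriv π 0 = 0 := by
  by_contra hcon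
  push Not at hcon
  have hmem : ∀ x y : ℂ, ‖x‖ < 2 → ‖y‖ < 2 → (x, y) ∈ ball (0 : ℂ × ℂ) 2 := by
    intro x y hx hy
    rw [mem_ball_zero_iff, Prod.norm_def]
    exact max_lt hx hy
  have key : ∀ y : ℂ, ‖y‖ < 2 → y ≠ 0 → ∀ x : ℂ, ‖x‖ < 2 → Q (x, y) = 0 := by
    intro y hy2 hy0 x hx
    have hypos : 0 < ‖y‖ := norm_pos_iff.2 hy0
    have hfr : ∃ᶠ x in 𝓝[≠] (0 : ℂ), Q (x, y) = 0 := by
      intro hev
      rw [eventually_nhdsWithin_iff, Metric.eventually_nhds_iff] at hev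
      obtain ⟨ε, hε, hev⟩ := hev
      obtain ⟨π, hπ, hπδ, hne, hlev, hz, hd⟩ := hcon (min ε ‖y‖) (lt_min hε hypos)
      rw [mem_ball_zero_iff, Prod.norm_def, max_lt_iff] at hπδ
      have h1 : ‖(π 0).1‖ < ε := hπδ.1.trans_le (min_le_left _ _)
      have h2 : ‖(π 0).2‖ < ‖y‖ := hπδ.2.trans_le (min_le_right _ _)
      have h3 : ‖(π 0).1‖ < ‖y‖ := hπδ.1.trans_le (min_le_right _ _)
      have h4 : π 0 ∈ ball (0 : ℂ × ℂ) 2 := hmem (π 0).1 (π 0).2 (h3.trans hy2) (h2.trans hy2)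
      obtain ⟨x', hx0, hxn, hxQ⟩ : ∃ x : ℂ, x ≠ 0 ∧ ‖x‖ ≤ ‖(π 0).1‖ ∧ Q (x, y) = 0 := by
        rcases Nat.eq_zero_or_pos b with hb | hb
        · subst hb
          simp only [pow_zero, mul_one] at hne hlev
          refine ⟨(π 0).1, ?_, le_rfl, lvl_a hQ ha hπ h4 hne hlev hz hd hy2⟩
          intro h5
          rw [h5, zero_pow (by omega)] at hne
          exact hne rfl
        · exact lvl_ab hQ ha hb hπ h4 hne hlev hz hd h2.le hy2
      exact hev (by rw [dist_zero_right]; exact hxn.trans_lt h1) hx0 hxQ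
    have han : AnalyticOnNhd ℂ (fun x => Q (x, y)) (ball (0 : ℂ) 2) := by
      intro x hx
      have h1 : AnalyticAt ℂ (fun x : ℂ => (x, y)) x := analyticAt_id.prod analyticAt_const
      exact AnalyticAt.fun_comp (hQ (x, y) (hmem x y (mem_ball_zero_iff.1 hx) hy2)) h1
    exact han.eqOn_zero_of_preconnected_of_frequently_eq_zero (convex_ball (0 : ℂ) 2).isPreconnected (mem_ball_self two_pos) hfr
      (mem_ball_zero_iff.2 hx)
  apply h0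
  filter_upwards [ball_mem_nhds (0 : ℂ × ℂ) two_pos] with p hp
  rw [mem_ball_zero_iff, Prod.norm_def, max_lt_iff] at hp
  by_cases hy : p.2 = 0
  · have h1 : ContinuousAt (fun y : ℂ => Q (p.1, y)) 0 := by
      have h2 : AnalyticAt ℂ (fun y : ℂ => (p.1, y)) 0 := analyticAt_const.prod analyticAt_id
      exact (AnalyticAt.fun_comp (hQ (p.1, 0) (hmem p.1 0 hp.1 (by simp))) h2).continuousAt
    have h2 : Tendsto (fun y : ℂ => Q (p.1, y)) (𝓝[≠] 0) (𝓝 (Q (p.1, 0))) := h1.tendsto.mono_left nhdsWithin_le_nhds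
    have h3 : Tendsto (fun y : ℂ => Q (p.1, y)) (𝓝[≠] 0) (𝓝 0) := by
      refine tendsto_const_nhds.congr' ?_
      rw [EventuallyEq, eventually_nhdsWithin_iff]
      filter_upwards [ball_mem_nhds (0 : ℂ) two_pos] with y hy2 hy0
      exact (key y (mem_ball_zero_iff.1 hy2) hy0 p.1 hp.1).symm
    have h4 := tendsto_nhds_unique h2 h3
    rw [show p = (p.1, p.2) from rfl, hy]
    exact h4
  · exact key p.2 hp.2 hy p.1 hp.1

theorem level_set {Q : ℂ × ℂ → ℂ} (hQ : ∀ p ∈ ball (0 : ℂ × ℂ) 2, AnalyticAt ℂ Q p) (h0 : ¬ ∀ᶠ p in 𝓝 (0 : ℂ × ℂ), Q p = 0) {a b : ℕ}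
    (hab : 1 ≤ a + b) : ∃ δ : ℝ, 0 < δ ∧ ∀ π : ℂ → ℂ × ℂ, AnalyticAt ℂ π 0 → π 0 ∈ ball (0 : ℂ × ℂ) δ → (π 0).1 ^ a * (π 0).2 ^ b ≠ 0 →
      (∀ᶠ z in 𝓝 (0 : ℂ), (π z).1 ^ a * (π z).2 ^ b = (π 0).1 ^ a * (π 0).2 ^ b) → (∀ᶠ z in 𝓝 (0 : ℂ), Q (π z) = 0) → deriv π 0 = 0 := by
  rcases Nat.eq_zero_or_pos a with ha | ha
  · have hb : 1 ≤ b := by omega
    have hsw : ∀ p : ℂ × ℂ, AnalyticAt ℂ (fun p : ℂ × ℂ => p.swap) p := fun p => analyticAt_snd.prod analyticAt_fst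
    have hnorm : ∀ p : ℂ × ℂ, ‖p.swap‖ = ‖p‖ := fun p => by
      rw [Prod.norm_def, Prod.norm_def, Prod.fst_swap, Prod.snd_swap, max_comm]
    have hQ' : ∀ p ∈ ball (0 : ℂ × ℂ) 2, AnalyticAt ℂ (fun p : ℂ × ℂ => Q p.swap) p := by
      intro p hp
      refine AnalyticAt.fun_comp (g := Q) (f := fun p : ℂ × ℂ => p.swap) (hQ _ ?_) (hsw p)
      rw [mem_ball_zero_iff, hnorm]
      exact mem_ball_zero_iff.1 hp
    have h0' : ¬ ∀ᶠ p in 𝓝 (0 : ℂ × ℂ), Q p.swap = 0 := by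
      intro h
      apply h0
      have h1 : Tendsto (fun p : ℂ × ℂ => p.swap) (𝓝 0) (𝓝 0) := by
        have h2 := (hsw 0).continuousAt.tendsto
        exact h2
      have h2 := h1.eventually h
      filter_upwards [h2] with p hp
      rwa [Prod.swap_swap] at hp
    obtain ⟨δ, hδ, h⟩ := HyLvl_fst (b := a) hQ' h0' hb
    refine ⟨δ, hδ, fun π hπ hπδ hne hlev hz => ?_⟩
    have hd := h (fun z => (π z).swap) (AnalyticAt.fun_comp (hsw _) hπ) (by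
      rw [mem_ball_zero_iff] at hπδ ⊢
      rwa [hnorm]) (by
      simp only [Prod.fst_swap, Prod.snd_swap]
      rwa [mul_comm]) (by
      filter_upwards [hlev] with z hz
      simp only [Prod.fst_swap, Prod.snd_swap]
      rw [mul_comm, hz, mul_comm]) (by
      filter_upwards [hz] with z hz
      rwa [Prod.swap_swap])
    have h1 : HasDerivAt (fun z => ((π z).swap).swap) ((deriv (fun z => (π z).swap) 0).swap) 0 := by
      have h2 : DifferentiableAt ℂ (fun z => (π z).swap) 0 := (AnalyticAt.fun_comp (hsw _) hπ).differentiableAt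
      have h3 : HasFDerivAt (fun p : ℂ × ℂ => p.swap) ((ContinuousLinearEquiv.prodComm ℂ ℂ ℂ : (ℂ × ℂ) →L[ℂ] (ℂ × ℂ))) ((π 0).swap) :=
        (ContinuousLinearEquiv.prodComm ℂ ℂ ℂ : (ℂ × ℂ) →L[ℂ] (ℂ × ℂ)).hasFDerivAt
      exact h3.comp_hasDerivAt 0 h2.hasDerivAt
    simp only [Prod.swap_swap] at h1
    have h2 : deriv π 0 = (deriv (fun z => (π z).swap) 0).swap := h1.deriv
    rw [h2, hd]
    rfl
  · exact HyLvl_fst hQ h0 ha

end Pool.Agent.EG
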