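import Pool.Agent.EG.HyDef
import Pool.Agent.EG.HyLvl

/-!
# EG HyDis: the bad values are isolated

`DU_level`: let `υ p = c₀ + κ * p.1 ^ a * p.2 ^ b` and `u (χ.σ p) - υ p ∈ Λ` on `ball 0 2`, `x = A • χ.σ p`, `A ≠ 0`, `p.1 ^ a * p.2 ^ b ≠ 0`, `1 ≤ a + b`.  Then `DU X Λ u x w 1` for some `w`: `fderiv ℂ υ p ≠ 0` (if `1 ≤ a`: `p.1 ≠ 0`, and
`∂υ/∂p.1 = κ a p.1 ^ (a - 1) p.2 ^ b ≠ 0`; if `1 ≤ b` the same with `p.2`), so there is `e` with `fderiv ℂ υ p e = 1`; take `γ z = A • χ.σ (p + z • e)`, `D z = υ (p + z • e)` (see `DU.of_chart`, `DU.smul` in `H62/EF/DUl.lean`).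

`level_of_badQ`: let `γ` be as in `BadQ X Λ u q c`, `γ 0 ∈ χ.U`, `π z = χ.q (γ z)`.  Then `π` is analytic at `0`; near `0` `γ z = A z • χ.σ (π z)`, `A z ≠ 0` (`χ.surj`), so `q (χ.σ (π z)) = 0` (`hhom`), and `u (χ.σ (π z)) - c ∈ Λ` (`hu.smul`), so
`c₀ + κ * (π z).1 ^ a * (π z).2 ^ b - c ∈ Λ`, a continuous function of `z` near `0` with values in the discrete group `Λ`, so it is constant near `0` (`Lat.const` or `Lat.discrete`); as `κ ≠ 0`, `(π z).1 ^ a * (π z).2 ^ b` is constant near `0`.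
`deriv π 0 ≠ 0`: `A z` can be chosen analytic (`A z = L (γ z) / L (χ.σ (π z))`, `L = innerSL ℂ (χ.σ (π 0))`, as in `chart_gen` of `H62/EF/DUl.lean`), so `deriv γ 0 = A 0 • dσ (deriv π 0) + A' 0 • χ.σ (π 0)`, and if `deriv π 0 = 0` then `deriv γ 0 ∈ ℂ γ 0`, `wd (γ 0) (deriv γ 0) = 0`
(`Pool.Agent.H36.BP.wd_eq_zero`), contradiction.

`bad_isolated`: suppose that for all `n` there is `c n ∈ Bad`, `c n ≠ c`, `dist (c n) c < 1 / (n + 1)`.  Let `x n ∈ X`, `u (x n) - c n ∈ Λ` be the critical point (`¬ Reg`: `push Not`; no `w` with `DU X Λ u (x n) w 1`) or the point `γ n 0` (`BadQ`).  Along `𝒰 = hyperfilter ℕ` `pr (x n) → pr x₀`,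
`x₀ ∈ X` (`isCompact_pr`), `u x₀ - c ∈ Λ` (`mem_fibre_of_tendsto`).  Let `χ, c₀, κ, a, b` be as in `hnc x₀`.  `c₀ - c ∈ Λ`: `x₀ = A • χ.σ 0`, `u x₀ - u (χ.σ 0) ∈ Λ`, `u (χ.σ 0) - c₀ ∈ Λ` (`0 ^ a * 0 ^ b = 0` as `1 ≤ a + b`).  By `near_chart` for almost all `n` `x n ∈ χ.U` and
`‖χ.q (x n)‖` is small, so `x n = A • χ.σ (p n)`, `p n = χ.q (x n) → 0`, and `c₀ + κ * s n - c n ∈ Λ`, `s n = (p n).1 ^ a * (p n).2 ^ b → 0`; so `κ * s n - (c n - c) ∈ Λ` tends to `0`, so it is `0` for almost all `n` (`Lat.discrete`), so `κ * s n = c n - c ≠ 0`, `s n ≠ 0`.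
In the critical case `DU_level` is a contradiction.  In the other case let `Q p = q (χ.σ p)`, and let `δ` be as in `level_set`; `Q` is not `0` near `0`: else `q y = 0` for all `y ∈ X` near `χ.σ 0` (`y = A • χ.σ (χ.q y)`), contradiction to `hthin`.  For almost all `n` `‖p n‖ < δ`, and
`level_of_badQ` contradicts `level_set`.
-/

set_option autoImplicit false

open Topology Filter Metric

namespace Pool.Agent.EG

open Pool.Agent.H36.BP (EN fs wd)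
open Pool.Agent.H14.PP (IsCone Chart Form Tan)
open Pool.Agent.H62.EF

variable {N : ℕ} {X : Set (EN N)} {Λ : AddSubgroup ℂ} {u q : EN N → ℂ}

private lemma near_const' (hΛ : Lat Λ) {E : ℂ → ℂ} (hE : ContinuousAt E 0) (h : ∀ᶠ z in 𝓝 (0 : ℂ), E z ∈ Λ) :
    ∀ᶠ z in 𝓝 (0 : ℂ), E z = E 0 := by
  obtain ⟨δ, hδ, hd⟩ := hΛ.discrete
  have h0 : E 0 ∈ Λ := h.self_of_nhds
  have h1 : ∀ᶠ z in 𝓝 (0 : ℂ), ‖E z - E 0‖ < δ := by
    have h2 : Tendsto (fun z => ‖E z - E 0‖) (𝓝 (0 : ℂ)) (𝓝 ‖E 0 - E 0‖) :=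
      ((hE.sub continuousAt_const).norm).tendsto
    rw [sub_self, norm_zero] at h2
    exact h2.eventually_lt_const hδ
  filter_upwards [h, h1] with z hz hz1
  exact sub_eq_zero.1 (hd _ (Λ.sub_mem hz h0) hz1)

private lemma level_dir {c₀ κ : ℂ} (hκ : κ ≠ 0) {a b : ℕ} (hab : 1 ≤ a + b) {p : ℂ × ℂ} (hs : p.1 ^ a * p.2 ^ b ≠ 0) :
    ∃ e : ℂ × ℂ, HasDerivAt (fun z : ℂ => c₀ + κ * (p.1 + z * e.1) ^ a * (p.2 + z * e.2) ^ b) 1 0 := by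
  have h1 : p.1 ^ a ≠ 0 := left_ne_zero_of_mul hs
  have h2 : p.2 ^ b ≠ 0 := right_ne_zero_of_mul hs
  rcases Nat.eq_zero_or_pos a with ha | ha
  · have hb : 0 < b := by omega
    have hp2 : p.2 ≠ 0 := by
      intro h
      rw [h, zero_pow hb.ne'] at h2
      exact h2 rfl
    obtain ⟨t, ht⟩ : ∃ t : ℂ, t = κ * ((b : ℂ) * p.2 ^ (b - 1)) := ⟨_, rfl⟩
    have ht0 : t ≠ 0 := by
      rw [ht]
      exact mul_ne_zero hκ (mul_ne_zero (by exact_mod_cast hb.ne') (pow_ne_zero _ hp2))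
    refine ⟨(0, t⁻¹), ?_⟩
    have h3 : HasDerivAt (fun z : ℂ => p.2 + z * t⁻¹) (t⁻¹) 0 := by
      have := ((hasDerivAt_id (0 : ℂ)).mul_const t⁻¹).const_add p.2
      simpa using this
    have h4 := ((h3.fun_pow b).const_mul κ).const_add c₀
    have h5 : κ * ((b : ℂ) * (p.2 + 0 * t⁻¹) ^ (b - 1) * t⁻¹) = 1 := by
      rw [zero_mul, add_zero, ← mul_assoc, ← ht]
      exact mul_inv_cancel₀ ht0
    rw [h5] at h4
    subst ha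
    simpa using h4
  · have hp1 : p.1 ≠ 0 := by
      intro h
      rw [h, zero_pow ha.ne'] at h1
      exact h1 rfl
    obtain ⟨t, ht⟩ : ∃ t : ℂ, t = κ * ((a : ℂ) * p.1 ^ (a - 1)) * p.2 ^ b := ⟨_, rfl⟩
    have ht0 : t ≠ 0 := by
      rw [ht]
      exact mul_ne_zero (mul_ne_zero hκ (mul_ne_zero (by exact_mod_cast ha.ne') (pow_ne_zero _ hp1))) h2
    refine ⟨(t⁻¹, 0), ?_⟩
    have h3 : HasDerivAt (fun z : ℂ => p.1 + z * t⁻¹) (t⁻¹) 0 := by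
      have := ((hasDerivAt_id (0 : ℂ)).mul_const t⁻¹).const_add p.1
      simpa using this
    have h4 := (((h3.fun_pow a).const_mul κ).mul_const (p.2 ^ b)).const_add c₀
    have h5 : κ * ((a : ℂ) * (p.1 + 0 * t⁻¹) ^ (a - 1) * t⁻¹) * p.2 ^ b = 1 := by
      rw [zero_mul, add_zero]
      calc κ * ((a : ℂ) * p.1 ^ (a - 1) * t⁻¹) * p.2 ^ b = t * t⁻¹ := by rw [ht]; ring
        _ = 1 := mul_inv_cancel₀ ht0
    rw [h5] at h4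
    simpa using h4

theorem DU_level (hX : IsCone X) (hu : TorusMap X Λ u) {χ : Chart X} {c₀ κ : ℂ} (hκ : κ ≠ 0) {a b : ℕ} (hab : 1 ≤ a + b)
    (hυ : ∀ p ∈ ball (0 : ℂ × ℂ) 2, u (χ.σ p) - (c₀ + κ * p.1 ^ a * p.2 ^ b) ∈ Λ) {p : ℂ × ℂ} (hp : p ∈ ball (0 : ℂ × ℂ) 2)
    (hs : p.1 ^ a * p.2 ^ b ≠ 0) {A : ℂ} (hA : A ≠ 0) : ∃ w : EN N, DU X Λ u (A • χ.σ p) w 1 := by
  obtain ⟨e, he⟩ := level_dir (c₀ := c₀) hκ hab hs
  have hla : AnalyticAt ℂ (fun z : ℂ => p + z • e) 0 :=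
    analyticAt_const.add (analyticAt_id.smul analyticAt_const)
  have h0 : p + (0 : ℂ) • e = p := by rw [zero_smul, add_zero]
  have hev : ∀ᶠ z in 𝓝 (0 : ℂ), p + z • e ∈ ball (0 : ℂ × ℂ) 2 := by
    have h3 : Tendsto (fun z : ℂ => p + z • e) (𝓝 (0 : ℂ)) (𝓝 p) := by
      have h4 := hla.continuousAt.tendsto
      rwa [h0] at h4
    exact h3.eventually (isOpen_ball.mem_nhds hp)
  have hσ : AnalyticAt ℂ χ.σ (p + (0 : ℂ) • e) := by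
    rw [h0]
    exact χ.σ_an p hp
  refine ⟨deriv (fun z : ℂ => A • χ.σ (p + z • e)) 0, fun z => A • χ.σ (p + z • e),
    fun z : ℂ => c₀ + κ * (p.1 + z * e.1) ^ a * (p.2 + z * e.2) ^ b,
    analyticAt_const.fun_smul (AnalyticAt.fun_comp hσ hla), ?_, by simp, rfl, by fun_prop, ?_, he.deriv⟩
  · filter_upwards [hev] with z hz
    exact hX.smul_mem _ (χ.σ_mem _ hz).1 A hA
  · filter_upwards [hev] with z hz
    have h5 := Λ.add_mem (hu.smul _ (χ.σ_mem _ hz).1 A hA) (hυ _ hz)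
    have h6 : (p + z • e).1 = p.1 + z * e.1 := by simp
    have h7 : (p + z • e).2 = p.2 + z * e.2 := by simp
    rw [h6, h7] at h5
    have h8 : u (A • χ.σ (p + z • e)) - (c₀ + κ * (p.1 + z * e.1) ^ a * (p.2 + z * e.2) ^ b) =
        u (A • χ.σ (p + z • e)) - u (χ.σ (p + z • e)) +
          (u (χ.σ (p + z • e)) - (c₀ + κ * (p.1 + z * e.1) ^ a * (p.2 + z * e.2) ^ b)) := by ring
    rw [h8]
    exact h5

theorem level_of_badQ (hX : IsCone X) (hu : TorusMap X Λ u) (hΛ : Lat Λ) {d : ℕ} (hhom : ∀ (c : ℂ) (x : EN N), q (c • x) = c ^ d * q x)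
    {χ : Chart X} {c₀ κ : ℂ} (hκ : κ ≠ 0) {a b : ℕ} (hυ : ∀ p ∈ ball (0 : ℂ × ℂ) 2, u (χ.σ p) - (c₀ + κ * p.1 ^ a * p.2 ^ b) ∈ Λ)
    {c : ℂ} {γ : ℂ → EN N} (hγ : AnalyticAt ℂ γ 0) (hγX : ∀ᶠ z in 𝓝 (0 : ℂ), γ z ∈ X ∧ u (γ z) - c ∈ Λ ∧ q (γ z) = 0)
    (hwd : 0 < wd (γ 0) (deriv γ 0)) (hU : γ 0 ∈ χ.U) :
    ∃ π : ℂ → ℂ × ℂ, AnalyticAt ℂ π 0 ∧ π 0 = χ.q (γ 0) ∧
      (∀ᶠ z in 𝓝 (0 : ℂ), (π z).1 ^ a * (π z).2 ^ b = (π 0).1 ^ a * (π 0).2 ^ b) ∧ (∀ᶠ z in 𝓝 (0 : ℂ), q (χ.σ (π z)) = 0) ∧ deriv π 0 ≠ 0 := by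
  have hγ0 : γ 0 ∈ X := hγX.self_of_nhds.1
  obtain ⟨hp, a₀, ha₀, hγa⟩ := χ.surj _ hγ0 hU
  obtain ⟨p, hpdef⟩ : ∃ p : ℂ × ℂ, p = χ.q (γ 0) := ⟨_, rfl⟩
  rw [← hpdef] at hp hγa
  have hm := χ.σ_mem p hp
  have hx0 : χ.σ p ≠ 0 := fun h => hX.zero_notMem (h ▸ hm.1)
  have hγ00 : γ 0 ≠ 0 := fun h => hX.zero_notMem (h ▸ hγ0)
  have hγc : Tendsto γ (𝓝 (0 : ℂ)) (𝓝 (γ 0)) := hγ.continuousAt.tendsto
  have hUe : ∀ᶠ z in 𝓝 (0 : ℂ), γ z ∈ χ.U := hγc.eventually (χ.isOpen_U.mem_nhds hU)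
  obtain ⟨π, hπ⟩ : ∃ π : ℂ → ℂ × ℂ, π = fun z => χ.q (γ z) := ⟨_, rfl⟩
  have hπa : AnalyticAt ℂ π 0 := by
    rw [hπ]
    exact AnalyticAt.fun_comp (χ.q_an _ hU) hγ
  have hπ0 : π 0 = p := by
    rw [hπ, hpdef]
  have hσa : AnalyticAt ℂ χ.σ (π 0) := by
    rw [hπ0]
    exact χ.σ_an p hp
  have hσπ : AnalyticAt ℂ (fun z => χ.σ (π z)) 0 := AnalyticAt.fun_comp hσa hπa
  have hπc : Tendsto π (𝓝 (0 : ℂ)) (𝓝 p) := by
    have h8 := hπa.continuousAt.tendsto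
    rwa [hπ0] at h8
  have hπb : ∀ᶠ z in 𝓝 (0 : ℂ), π z ∈ ball (0 : ℂ × ℂ) 2 := hπc.eventually (isOpen_ball.mem_nhds hp)
  have hsj : ∀ᶠ z in 𝓝 (0 : ℂ), ∃ a : ℂ, a ≠ 0 ∧ γ z = a • χ.σ (π z) := by
    filter_upwards [hγX, hUe] with z hz hz1
    rw [hπ]
    exact (χ.surj _ hz.1 hz1).2
  refine ⟨π, hπa, by rw [hπ0, hpdef], ?_, ?_, ?_⟩
  · have hE : ContinuousAt (fun z => c₀ + κ * (π z).1 ^ a * (π z).2 ^ b - c) 0 := by
      have h1 : ContinuousAt (fun z => (π z).1) 0 := hπa.continuousAt.fst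
      have h2 : ContinuousAt (fun z => (π z).2) 0 := hπa.continuousAt.snd
      fun_prop
    have hEm : ∀ᶠ z in 𝓝 (0 : ℂ), c₀ + κ * (π z).1 ^ a * (π z).2 ^ b - c ∈ Λ := by
      filter_upwards [hγX, hsj, hπb] with z hz hz1 hz2
      obtain ⟨A, hA, hzA⟩ := hz1
      have h1 := hu.smul _ (χ.σ_mem _ hz2).1 A hA
      rw [← hzA] at h1
      have h2 := hυ _ hz2
      have h3 := Λ.sub_mem (Λ.sub_mem hz.2.1 h1) h2
      have h4 : u (γ z) - c - (u (γ z) - u (χ.σ (π z))) - (u (χ.σ (π z)) - (c₀ + κ * (π z).1 ^ a * (π z).2 ^ b)) =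
          c₀ + κ * (π z).1 ^ a * (π z).2 ^ b - c := by ring
      rwa [h4] at h3
    filter_upwards [near_const' hΛ hE hEm] with z hz
    have h5 : κ * ((π z).1 ^ a * (π z).2 ^ b) = κ * ((π 0).1 ^ a * (π 0).2 ^ b) := by
      have h6 : c₀ + κ * (π z).1 ^ a * (π z).2 ^ b - c = c₀ + κ * (π 0).1 ^ a * (π 0).2 ^ b - c := hz
      linear_combination h6
    exact mul_left_cancel₀ hκ h5
  · filter_upwards [hγX, hsj] with z hz hz1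
    obtain ⟨A, hA, hzA⟩ := hz1
    have h1 := hz.2.2
    rw [hzA, hhom] at h1
    exact (mul_eq_zero.1 h1).resolve_left (pow_ne_zero _ hA)
  · intro hd0
    obtain ⟨L, hL⟩ : ∃ L : EN N →L[ℂ] ℂ, L = innerSL ℂ (χ.σ p) := ⟨_, rfl⟩
    have hL0 : L (χ.σ p) ≠ 0 := by
      rw [hL, innerSL_apply_apply]
      exact inner_self_ne_zero.2 hx0
    have hnum : AnalyticAt ℂ (fun z => L (γ z)) 0 := AnalyticAt.fun_comp (L.analyticAt (γ 0)) hγ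
    have hden : AnalyticAt ℂ (fun z => L (χ.σ (π z))) 0 :=
      AnalyticAt.fun_comp (g := L) (f := fun z => χ.σ (π z)) (L.analyticAt (χ.σ (π 0))) hσπ
    have hden0 : L (χ.σ (π 0)) ≠ 0 := by
      rw [hπ0]
      exact hL0
    obtain ⟨A, hA⟩ : ∃ A : ℂ → ℂ, A = fun z => L (γ z) / L (χ.σ (π z)) := ⟨_, rfl⟩
    have hAa : AnalyticAt ℂ A 0 := by
      rw [hA]
      exact hnum.fun_div hden hden0
    have hdne : ∀ᶠ z in 𝓝 (0 : ℂ), L (χ.σ (π z)) ≠ 0 := hden.continuousAt.eventually_ne hden0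
    have hAe : γ =ᶠ[𝓝 (0 : ℂ)] fun z => A z • χ.σ (π z) := by
      filter_upwards [hsj, hdne] with z hz hz1
      obtain ⟨a, ha, hza⟩ := hz
      have h8 : A z = a := by
        rw [hA]
        change L (γ z) / L (χ.σ (π z)) = a
        rw [hza, map_smul, smul_eq_mul, mul_div_assoc, div_self hz1, mul_one]
      rw [h8]
      exact hza
    have hσd : HasDerivAt (fun z => χ.σ (π z)) (fderiv ℂ χ.σ p (deriv π 0)) 0 := by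
      have h8 := hσa.differentiableAt.hasFDerivAt.comp_hasDerivAt (0 : ℂ) hπa.differentiableAt.hasDerivAt
      rw [hπ0] at h8
      exact h8
    have hder : deriv γ 0 = A 0 • fderiv ℂ χ.σ p (deriv π 0) + deriv A 0 • χ.σ (π 0) := by
      rw [hAe.deriv_eq]
      exact (hAa.differentiableAt.hasDerivAt.fun_smul hσd).deriv
    rw [hd0, map_zero, smul_zero, zero_add, hπ0] at hder
    have hder2 : deriv γ 0 = (deriv A 0 * a₀⁻¹) • γ 0 := by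
      rw [hder, hγa, smul_smul, mul_assoc, inv_mul_cancel₀ ha₀, mul_one]
    have h9 := (Pool.Agent.H36.BP.wd_eq_zero hγ00).2 ⟨_, hder2⟩
    rw [h9] at hwd
    exact lt_irrefl _ hwd

theorem bad_isolated (hX : IsCone X) (hu : TorusMap X Λ u) (hΛ : Lat Λ) (hnc : NC X Λ u) (han : ∀ x, AnalyticAt ℂ q x) {d : ℕ}
    (hhom : ∀ (c : ℂ) (x : EN N), q (c • x) = c ^ d * q x) (hthin : ∀ x ∈ X, ¬ ∀ᶠ y in 𝓝 x, y ∈ X → q y = 0) (c : ℂ) :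
    ∃ ε : ℝ, 0 < ε ∧ ∀ c' ∈ Bad X Λ u q, ‖c' - c‖ < ε → c' = c := by
  by_contra hcon
  push Not at hcon
  have hcon' : ∀ n : ℕ, ∃ c' ∈ Bad X Λ u q, ‖c' - c‖ < 1 / ((n : ℝ) + 1) ∧ c' ≠ c := fun n => hcon _ (by positivity)
  choose cs hbad hcs hne using hcon'
  -- the points
  have hpt : ∀ n, ∃ x ∈ X, u x - cs n ∈ Λ ∧ ((¬ ∃ w : EN N, DU X Λ u x w 1) ∨
      ∃ γ : ℂ → EN N, AnalyticAt ℂ γ 0 ∧ (∀ᶠ z in 𝓝 (0 : ℂ), γ z ∈ X ∧ u (γ z) - cs n ∈ Λ ∧ q (γ z) = 0) ∧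
        0 < wd (γ 0) (deriv γ 0) ∧ γ 0 = x) := by
    intro n
    rcases hbad n with h | ⟨γ, h1, h2, h3⟩
    · unfold Reg at h
      push Not at h
      obtain ⟨x, hx, hux, hw⟩ := h
      refine ⟨x, hx, hux, Or.inl ?_⟩
      rintro ⟨w, hw'⟩
      exact hw w hw'
    · have h4 := h2.self_of_nhds
      exact ⟨γ 0, h4.1, h4.2.1, Or.inr ⟨γ, h1, h2, h3, rfl⟩⟩
  choose x hxX hux hP using hpt
  obtain ⟨y, hy, φ, hφ, hlim⟩ := (isCompact_pr hX).tendsto_subseq (x := fun n => pr (x n)) (fun n => ⟨x n, hxX n, rfl⟩)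
  obtain ⟨x₀, hx₀, rfl⟩ := hy
  have hz : Tendsto (fun n : ℕ => 1 / ((φ n : ℝ) + 1)) atTop (𝓝 0) :=
    (tendsto_one_div_add_atTop_nhds_zero_nat (𝕜 := ℝ)).comp hφ.tendsto_atTop
  have hclim : Tendsto (fun n => cs (φ n)) atTop (𝓝 c) := by
    rw [tendsto_iff_norm_sub_tendsto_zero]
    exact squeeze_zero (fun n => norm_nonneg _) (fun n => (hcs (φ n)).le) hz
  have hux₀ : u x₀ - c ∈ Λ := mem_fibre_of_tendsto hX hu hΛ (l := atTop) (x := fun n => x (φ n)) (c := fun n => cs (φ n))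
    (Eventually.of_forall fun n => ⟨hxX _, hux _⟩) hx₀ hlim hclim
  obtain ⟨χ, c₀, κ, a, b, hxU, hq0, hκ, hab, hυ⟩ := hnc x₀ hx₀
  have h02 : (0 : ℂ × ℂ) ∈ ball (0 : ℂ × ℂ) 2 := mem_ball_self two_pos
  have hzero : (0 : ℂ) ^ a * (0 : ℂ) ^ b = 0 := by
    rw [← pow_add]
    exact zero_pow (by omega)
  have hc₀ : c₀ - c ∈ Λ := by
    obtain ⟨-, A, hA, hxA⟩ := χ.surj _ hx₀ hxU
    rw [hq0] at hxA
    have h1 := hu.smul _ (χ.σ_mem 0 h02).1 A hA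
    rw [← hxA] at h1
    have h2 := hυ 0 h02
    have h3 : c₀ + κ * (0 : ℂ × ℂ).1 ^ a * (0 : ℂ × ℂ).2 ^ b = c₀ := by
      have : κ * (0 : ℂ × ℂ).1 ^ a * (0 : ℂ × ℂ).2 ^ b = κ * ((0 : ℂ) ^ a * (0 : ℂ) ^ b) := by
        rw [Prod.fst_zero, Prod.snd_zero, mul_assoc]
      rw [this, hzero, mul_zero, add_zero]
    rw [h3] at h2
    have h4 := Λ.sub_mem (Λ.sub_mem hux₀ h1) h2
    have h5 : u x₀ - c - (u x₀ - u (χ.σ 0)) - (u (χ.σ 0) - c₀) = c₀ - c := by ring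
    rwa [h5] at h4
  -- the function `q` in the chart
  have hQan : ∀ p ∈ ball (0 : ℂ × ℂ) 2, AnalyticAt ℂ (fun p => q (χ.σ p)) p := fun p hp =>
    AnalyticAt.fun_comp (han _) (χ.σ_an p hp)
  have hQ0 : ¬ ∀ᶠ p in 𝓝 (0 : ℂ × ℂ), q (χ.σ p) = 0 := by
    intro h
    have hm := χ.σ_mem 0 h02
    refine hthin (χ.σ 0) hm.1 ?_
    have h1 : Tendsto χ.q (𝓝 (χ.σ 0)) (𝓝 (0 : ℂ × ℂ)) := by
      have := (χ.q_an _ hm.2.1).continuousAt.tendsto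
      rwa [hm.2.2] at this
    filter_upwards [h1.eventually h, χ.isOpen_U.mem_nhds hm.2.1] with y hy hyU hyX
    obtain ⟨-, A, hA, hyA⟩ := χ.surj y hyX hyU
    rw [hyA, hhom, hy, mul_zero]
  obtain ⟨δ, hδ, hlev⟩ := level_set hQan hQ0 hab
  obtain ⟨δΛ, hδΛ, hdisc⟩ := hΛ.discrete
  have hsc : ∀ᶠ p in 𝓝 (0 : ℂ × ℂ), ‖κ * (p.1 ^ a * p.2 ^ b)‖ < δΛ / 2 := by
    have h1 : Continuous fun p : ℂ × ℂ => ‖κ * (p.1 ^ a * p.2 ^ b)‖ := by fun_prop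
    have h2 := h1.tendsto 0
    rw [Prod.fst_zero, Prod.snd_zero, hzero, mul_zero, norm_zero] at h2
    exact h2.eventually_lt_const (half_pos hδΛ)
  obtain ⟨ε₁, hε₁, hsc'⟩ := Metric.eventually_nhds_iff_ball.1 hsc
  obtain ⟨δ', hδ', hnear⟩ := near_chart hX χ hx₀ hxU hq0 (lt_min hε₁ hδ)
  have e1 : ∀ᶠ n in atTop, dist (pr (x (φ n))) (pr x₀) < δ' := Metric.tendsto_nhds.1 hlim δ' hδ'
  have e2 : ∀ᶠ n in atTop, dist (cs (φ n)) c < δΛ / 2 := Metric.tendsto_nhds.1 hclim _ (half_pos hδΛ)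
  obtain ⟨n, h1, h2⟩ := (e1.and e2).exists
  obtain ⟨hnU, hnq⟩ := hnear _ (hxX _) h1
  obtain ⟨hpb, A, hA, hxA⟩ := χ.surj _ (hxX (φ n)) hnU
  obtain ⟨p, hp⟩ : ∃ p : ℂ × ℂ, p = χ.q (x (φ n)) := ⟨_, rfl⟩
  rw [← hp] at hnq hpb hxA
  have hp1 : p ∈ ball (0 : ℂ × ℂ) ε₁ := by
    rw [mem_ball_zero_iff]
    exact hnq.trans_le (min_le_left _ _)
  have hpδ : p ∈ ball (0 : ℂ × ℂ) δ := by
    rw [mem_ball_zero_iff]
    exact hnq.trans_le (min_le_right _ _)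
  have h3 := hsc' p hp1
  have h4 : κ * (p.1 ^ a * p.2 ^ b) - (cs (φ n) - c) ∈ Λ := by
    have h5 := hu.smul _ (χ.σ_mem p hpb).1 A hA
    rw [← hxA] at h5
    have h6 := Λ.sub_mem (Λ.sub_mem (Λ.sub_mem (hux (φ n)) h5) (hυ p hpb)) hc₀
    have h7 : u (x (φ n)) - cs (φ n) - (u (x (φ n)) - u (χ.σ p)) - (u (χ.σ p) - (c₀ + κ * p.1 ^ a * p.2 ^ b)) - (c₀ - c) =
        κ * (p.1 ^ a * p.2 ^ b) - (cs (φ n) - c) := by ring
    rwa [h7] at h6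
  have h5 : ‖κ * (p.1 ^ a * p.2 ^ b) - (cs (φ n) - c)‖ < δΛ := by
    have h6 := norm_sub_le (κ * (p.1 ^ a * p.2 ^ b)) (cs (φ n) - c)
    rw [dist_eq_norm] at h2
    linarith
  have h6 := hdisc _ h4 h5
  have hs : p.1 ^ a * p.2 ^ b ≠ 0 := by
    intro h7
    rw [h7, mul_zero, zero_sub, neg_eq_zero, sub_eq_zero] at h6
    exact hne _ h6
  rcases hP (φ n) with h7 | ⟨γ, g1, g2, g3, g4⟩
  · apply h7
    rw [hxA]
    exact DU_level hX hu hκ hab hυ hpb hs hA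
  · have hγU : γ 0 ∈ χ.U := by
      rw [g4]
      exact hnU
    obtain ⟨π, k1, k2, k3, k4, k5⟩ := level_of_badQ hX hu hΛ hhom hκ hυ g1 g2 g3 hγU
    rw [g4, ← hp] at k2
    refine k5 (hlev π k1 ?_ ?_ k3 k4)
    · rw [k2]
      exact hpδ
    · rw [k2]
      exact hs

end Pool.Agent.EG
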