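import Pool.Agent.EG.HyAn
import Pool.Agent.EG.HyBd

/-!
# EG HyLio: entire curves with bounded derivative in the fibre over a regular value

`vertical_liouville`: choose `w z` with `DU X Λ u (G z) (w z) 1` (`hreg`), `V z = Ω (G z; G' z, w z) • G z`.  `V` is entire (`vert_an` at every `z₀`; `V` agrees with an analytic function near `z₀`) and bounded: if `wd (G z) (G' z) > 0` then `t = ‖Ω‖ * ‖G z‖ ^ (1 + 2 M) / wd ^ M`
satisfies `TfAt Λ u Ω (G z) t` (`DU_vert`), so `t ≤ C` (`TfAt_bound`), and `‖V z‖ = ‖Ω‖ * ‖G z‖ = t * (wd / ‖G z‖ ^ 2) ^ M ≤ C * L ^ M`; if `wd (G z) (G' z) = 0` then `G' z = b • G z` (`Pool.Agent.H36.BP.wd_eq_zero`), and `Ω (G z; b • G z, w) = Ω (G z; 0 + b • G z, w + 0 • G z) = Ω (G z; 0, w)`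
(`Form.add_smul`) `= Ω (G z; 0 • w + 0 • w, ..) = 0` (`Form.det`, `1 ≤ M`), so `V z = 0`.  Liouville (`Differentiable.exists_const_forall_eq_of_bounded`): `V z = V₀`.  If `V₀ = 0`: `Ω (G z; G' z, w z) = 0` for all `z` (`G z ≠ 0`), and by `form_well` for all `w`: right.
If `V₀ ≠ 0`: `G z = (..)⁻¹ • V₀` for all `z`, so `G z = c • G z₁` for all `z, z₁`, and `G' z₁ = b • G z₁` (`Pool.Agent.H36.BP.Brody_deriv_line`), `wd (G z₁) (G' z₁) = 0`: left.

`badQ_of_curve`: by `vertical_liouville` (the left alternative is excluded by `hz₀`) `Ω (G z; G' z, w) = 0` for all `z, w` with `DU .. w 1`.  For `z` near `z₀` `wd (G z) (G' z) ≠ 0` (continuity, `Pool.Agent.H36.BP.wd_cont`).  For these `z` take `w` (`hreg`); then `TfAt Λ u Ω (G z) 0`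
(`DU_vert`; the numerator is `0`), so by `TfAt.ne_zero` (with `T = {x | x ∈ X ∧ q x = 0}`) `q (G z) = 0`.  Take `γ ζ = G (z₀ + ζ)`.
-/

set_option autoImplicit false

open Topology Filter Metric

namespace Pool.Agent.EG

open Pool.Agent.H36.BP (EN fs wd)
open Pool.Agent.H14.PP (IsCone Chart Form Tan)
open Pool.Agent.H62.EF

variable {N M : ℕ} {X : Set (EN N)} {Λ : AddSubgroup ℂ} {u q : EN N → ℂ}

theorem vertical_liouville (hX : IsCone X) (hch : Charts X) (hu : TorusMap X Λ u) (hΛ : Lat Λ) (hM : 1 ≤ M) (Ω : Form X M 1) {c : ℂ}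
    (hreg : Reg X Λ u c) {G : ℂ → EN N} (hG : Differentiable ℂ G) (hGX : ∀ z, G z ∈ X) (hGu : ∀ z, u (G z) - c ∈ Λ) {L : ℝ}
    (hL : ∀ z, fs (G z) (deriv G z) ≤ L) :
    (∀ z, wd (G z) (deriv G z) = 0) ∨ ∀ z w, DU X Λ u (G z) w 1 → Ω.toFun (G z) (deriv G z) w = 0 := by
  have hGa : ∀ z, AnalyticAt ℂ G z := fun z => hG.analyticAt z
  have hev : ∀ z, ∀ᶠ ζ in 𝓝 z, G ζ ∈ X ∧ u (G ζ) - c ∈ Λ := fun z => Eventually.of_forall fun ζ => ⟨hGX ζ, hGu ζ⟩
  have hG0 : ∀ z, G z ≠ 0 := fun z h0 => hX.zero_notMem (h0 ▸ hGX z)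
  have hex : ∀ z, ∃ w, DU X Λ u (G z) w 1 := fun z => hreg (G z) (hGX z) (hGu z)
  choose w hw using hex
  have hvert : ∀ z, DU X Λ u (G z) (deriv G z) 0 := fun z => DU_vert (hGa z) (hev z)
  set V : ℂ → EN N := fun z => Ω.toFun (G z) (deriv G z) (w z) • G z with hV
  have hVd : Differentiable ℂ V := by
    intro z₀
    obtain ⟨V', hV', hev'⟩ := vert_an hX hch hu hΛ Ω (hGa z₀) (hev z₀) (hw z₀)
    have heq : V =ᶠ[𝓝 z₀] V' := by
      filter_upwards [hev'] with z hz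
      exact (hz (w z) (hw z)).symm
    exact (hV'.congr heq.symm).differentiableAt
  obtain ⟨C, hC0, hC⟩ := TfAt_bound hX hch hu hΛ Ω hreg
  have hL0 : 0 ≤ L := (Pool.Agent.H36.BP.fs_nonneg _ _).trans (hL 0)
  have hbd : ∀ z, ‖V z‖ ≤ C * L ^ M := by
    intro z
    have hn : 0 < ‖G z‖ := norm_pos_iff.mpr (hG0 z)
    rcases (Pool.Agent.H36.BP.wd_nonneg (G z) (deriv G z)).lt_or_eq with hpos | hzero
    · have ht := hC (G z) (hGX z) (hGu z) _ ⟨deriv G z, w z, hvert z, hw z, hpos, rfl⟩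
      have hfs : (wd (G z) (deriv G z) / ‖G z‖ ^ 2) ^ M ≤ L ^ M := pow_le_pow_left₀ (div_nonneg (Pool.Agent.H36.BP.wd_nonneg _ _) (by positivity)) (hL z) M
      have hVz : ‖V z‖ = ‖Ω.toFun (G z) (deriv G z) (w z)‖ * ‖G z‖ ^ (1 + 2 * M) / wd (G z) (deriv G z) ^ M *
          (wd (G z) (deriv G z) / ‖G z‖ ^ 2) ^ M := by
        rw [hV]
        simp only
        rw [norm_smul, div_pow, pow_add, pow_one, pow_mul]
        field_simp
      rw [hVz]
      exact mul_le_mul ht hfs (pow_nonneg (div_nonneg (Pool.Agent.H36.BP.wd_nonneg _ _) (by positivity)) M) hC0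
    · obtain ⟨b, hb⟩ := (Pool.Agent.H36.BP.wd_eq_zero (hG0 z)).1 hzero.symm
      have hT0 : Tan X (G z) 0 := ⟨fun _ => G z, ⟨analyticAt_const, Eventually.of_forall fun _ => hGX z⟩, rfl, deriv_const _ _⟩
      have h1 := Ω.add_smul (G z) (hGX z) 0 (w z) hT0 (hw z).tan b 0
      have h2 := Ω.det (G z) (hGX z) (w z) (w z) (hw z).tan (hw z).tan 0 0 1 0
      have hM0 : M ≠ 0 := by omega
      simp only [zero_smul, add_zero, one_smul, zero_add, mul_zero, zero_mul, sub_self, zero_pow hM0] at h1 h2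
      have h3 : V z = 0 := by
        rw [hV]
        simp only
        rw [hb, h1, h2, zero_smul]
      rw [h3, norm_zero]
      positivity
  obtain ⟨V₀, hV₀⟩ := hVd.exists_const_forall_eq_of_bounded (by
    rw [isBounded_iff_forall_norm_le]
    refine ⟨C * L ^ M, ?_⟩
    rintro _ ⟨z, rfl⟩
    exact hbd z)
  by_cases h0 : V₀ = 0
  · right
    intro z w' hw'
    have h1 := hV₀ z
    rw [h0] at h1
    have h2 : Ω.toFun (G z) (deriv G z) (w z) = 0 := (smul_eq_zero.mp h1).resolve_right (hG0 z)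
    rw [form_well hX hch hu hΛ Ω (hGX z) (hvert z) hw' (hw z)]
    exact h2
  · left
    intro z₁
    have hs : ∀ z, Ω.toFun (G z) (deriv G z) (w z) ≠ 0 := by
      intro z hz
      apply h0
      rw [← hV₀ z, hV]
      simp only
      rw [hz, zero_smul]
    have hline : ∀ z, ∃ a : ℂ, G z = a • G z₁ := by
      intro z
      refine ⟨(Ω.toFun (G z) (deriv G z) (w z))⁻¹ * Ω.toFun (G z₁) (deriv G z₁) (w z₁), ?_⟩
      have h1 : V z = V z₁ := (hV₀ z).trans (hV₀ z₁).symm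
      rw [mul_smul]
      have h2 : Ω.toFun (G z₁) (deriv G z₁) (w z₁) • G z₁ = Ω.toFun (G z) (deriv G z) (w z) • G z := h1.symm
      rw [h2, smul_smul, inv_mul_cancel₀ (hs z), one_smul]
    obtain ⟨a, ha⟩ := Pool.Agent.H36.BP.Brody_deriv_line (hG z₁) hline
    exact (Pool.Agent.H36.BP.wd_eq_zero (hG0 z₁)).2 ⟨a, ha⟩

theorem badQ_of_curve (hX : IsCone X) (hch : Charts X) (hu : TorusMap X Λ u) (hΛ : Lat Λ) (hM : 1 ≤ M) (Ω : Form X M 1)
    (hΩ : Ω.NoZeroOff {x | x ∈ X ∧ q x = 0}) {c : ℂ} (hreg : Reg X Λ u c) {G : ℂ → EN N} (hG : Differentiable ℂ G) (hGX : ∀ z, G z ∈ X)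
    (hGu : ∀ z, u (G z) - c ∈ Λ) {L : ℝ} (hL : ∀ z, fs (G z) (deriv G z) ≤ L) {z₀ : ℂ} (hz₀ : wd (G z₀) (deriv G z₀) ≠ 0) :
    BadQ X Λ u q c := by
  rcases vertical_liouville hX hch hu hΛ hM Ω hreg hG hGX hGu hL with h | h
  · exact absurd (h z₀) hz₀
  have hGa : ∀ z, AnalyticAt ℂ G z := fun z => hG.analyticAt z
  have hev : ∀ z, ∀ᶠ ζ in 𝓝 z, G ζ ∈ X ∧ u (G ζ) - c ∈ Λ := fun z => Eventually.of_forall fun ζ => ⟨hGX ζ, hGu ζ⟩
  have hdc : Continuous (deriv G) := by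
    refine continuous_iff_continuousAt.2 fun z => ?_
    exact (hGa z).deriv.continuousAt
  have hpc : Continuous fun z : ℂ => (G z, deriv G z) := hG.continuous.prodMk hdc
  have hcont : Continuous fun z => wd (G z) (deriv G z) := by
    have h1 := Pool.Agent.H36.BP.wd_cont.comp hpc
    exact h1
  have hne : ∀ᶠ z in 𝓝 z₀, wd (G z) (deriv G z) ≠ 0 := hcont.continuousAt.eventually_ne hz₀
  have hq : ∀ z, wd (G z) (deriv G z) ≠ 0 → q (G z) = 0 := by
    intro z hz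
    by_contra hqz
    obtain ⟨w, hw⟩ := hreg (G z) (hGX z) (hGu z)
    have hpos : 0 < wd (G z) (deriv G z) := lt_of_le_of_ne (Pool.Agent.H36.BP.wd_nonneg _ _) hz.symm
    have ht : TfAt Λ u Ω (G z) 0 := by
      refine ⟨deriv G z, w, DU_vert (hGa z) (hev z), hw, hpos, ?_⟩
      rw [h z w hw, norm_zero, zero_mul, zero_div]
    have hnT : G z ∉ {x | x ∈ X ∧ q x = 0} := fun hT => hqz hT.2
    have hne0 := TfAt.ne_zero hX hch hu hΛ hΩ (hGX z) hnT ht
    exact hne0 rfl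
  have hlim : Tendsto (fun ζ : ℂ => z₀ + ζ) (𝓝 0) (𝓝 z₀) := by
    have h1 : Continuous fun ζ : ℂ => z₀ + ζ := by fun_prop
    simpa using h1.tendsto 0
  refine ⟨fun ζ => G (z₀ + ζ), ?_, ?_, ?_⟩
  · have h1 : AnalyticAt ℂ G (z₀ + 0) := hGa _
    have h2 : AnalyticAt ℂ (fun ζ : ℂ => z₀ + ζ) 0 := analyticAt_const.add analyticAt_id
    exact AnalyticAt.fun_comp h1 h2
  · filter_upwards [hlim.eventually hne] with ζ hζ
    exact ⟨hGX _, hGu _, hq _ hζ⟩
  · have h1 : deriv (fun ζ => G (z₀ + ζ)) 0 = deriv G z₀ := by rw [deriv_comp_const_add, add_zero]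
    rw [h1]
    show 0 < wd (G (z₀ + 0)) (deriv G z₀)
    rw [add_zero]
    exact lt_of_le_of_ne (Pool.Agent.H36.BP.wd_nonneg _ _) hz₀.symm

end Pool.Agent.EG
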