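import Mathlib.Analysis.Complex.CauchyIntegral
import Mathlib.Analysis.Analytic.IsolatedZeros
import Mathlib.Analysis.Analytic.Uniqueness
import Mathlib.Analysis.SpecialFunctions.Complex.LogDeriv
import Mathlib.Analysis.SpecialFunctions.Complex.Analytic

/-!
# EG HyLvlA: functions which vanish along a germ of a level set of `x ^ a * y ^ b`

`root_const`: the set `{t | t ^ a = 1}` is finite (roots of `X ^ a - 1`), so there is a neighbourhood of `1` whose only point in it is `1`.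

`lvl_ab` (`1 ≤ a`, `1 ≤ b`).  Let `x₀ = (π 0).1`, `y₀ = (π 0).2`; both are `≠ 0`.  `η z = log ((π z).2 / y₀)` is analytic at `0`, `η 0 = 0`, and near `0` `exp (η z) = (π z).2 / y₀`.  The function
`r z = (π z).1 / (x₀ * exp (- (b / a) * η z))` is continuous at `0`, `r 0 = 1`, and `(r z) ^ a = 1` near `0` (`(π z).1 ^ a * (π z).2 ^ b = x₀ ^ a * y₀ ^ b`, `exp (- (b / a) η) ^ a = exp (- b η) = (y₀ / (π z).2) ^ b`); by `root_const`
`r z = 1` near `0`.  So near `0` `π z = Φ (η z)`, `Φ η = (x₀ * exp (- (b / a) * η), y₀ * exp η)`.  `deriv η 0 ≠ 0` (else `deriv π 0 = deriv η 0 • Φ' 0 = 0`).  Let `F η = Q (Φ η)`: analytic on the set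
`S = {η | ‖x₀‖ * exp (- (b / a) * re η) < 2 ∧ ‖y₀‖ * exp (re η) < 2}`, which is open and convex (`re ⁻¹' (an order connected subset of ℝ)`; or: intersection of two half planes) and contains `0`.  `F (η z) = 0` for `z` near `0`; as `deriv η 0 ≠ 0`,
`η z ≠ 0` for `z ≠ 0` near `0` (`HasDerivAt.eventually_ne`), so `∃ᶠ η in 𝓝[≠] 0, F η = 0`, and `F = 0` on `S` (`AnalyticOnNhd.eqOn_zero_of_preconnected_of_frequently_eq_zero`).  For `y` with `‖y₀‖ ≤ ‖y‖ < 2` take `η = log (y / y₀)`: `re η = log (‖y‖ / ‖y₀‖) ≥ 0`,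
`y₀ * exp η = y`, `x = x₀ * exp (- (b / a) * η)`, `‖x‖ ≤ ‖x₀‖`, `x ≠ 0`.

`lvl_a` (`1 ≤ a`, `b = 0`).  As above `(π z).1 = x₀` near `0` (`x₀ ≠ 0`), so `deriv (fun z => (π z).2) 0 ≠ 0`, so `Q (x₀, ·)`, analytic on `ball 0 2`, has zeros which accumulate at `y₀`, and is zero on `ball 0 2`.
-/

set_option autoImplicit false

open Topology Filter Metric

namespace Pool.Agent.EG

theorem root_const {a : ℕ} (ha : 1 ≤ a) : ∀ᶠ t in 𝓝 (1 : ℂ), t ^ a = 1 → t = 1 := by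
  have h1 : HasDerivAt (fun t : ℂ => t ^ a) ((a : ℂ) * 1 ^ (a - 1)) 1 := hasDerivAt_pow a 1
  have h2 : ((a : ℂ) * 1 ^ (a - 1)) ≠ 0 := by
    rw [one_pow, mul_one]
    exact_mod_cast (by omega : a ≠ 0)
  have h3 : ∀ᶠ z in 𝓝[≠] (1 : ℂ), z ^ a ≠ 1 := h1.eventually_ne h2
  rw [eventually_nhdsWithin_iff] at h3
  filter_upwards [h3] with t ht h4
  by_contra hne
  exact ht hne h4

private theorem HyLvlA_fst {π : ℂ → ℂ × ℂ} (hπ : AnalyticAt ℂ π 0) : AnalyticAt ℂ (fun z => (π z).1) 0 :=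
  ((ContinuousLinearMap.fst ℂ ℂ ℂ).analyticAt _).comp hπ

private theorem HyLvlA_snd {π : ℂ → ℂ × ℂ} (hπ : AnalyticAt ℂ π 0) : AnalyticAt ℂ (fun z => (π z).2) 0 :=
  ((ContinuousLinearMap.snd ℂ ℂ ℂ).analyticAt _).comp hπ

private theorem HyLvlA_punct {η : ℂ → ℂ} {c : ℂ} (hη : AnalyticAt ℂ η 0) (h0 : η 0 = c) (hd : deriv η 0 ≠ 0) {p : ℂ → Prop}
    (hp : ∀ᶠ z in 𝓝 (0 : ℂ), p (η z)) : ∃ᶠ w in 𝓝[≠] c, p w := by
  have h1 : ∀ᶠ z in 𝓝[≠] (0 : ℂ), η z ≠ c := hη.differentiableAt.hasDerivAt.eventually_ne hd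
  have h2 : Tendsto η (𝓝[≠] 0) (𝓝 c) := by
    have h3 := hη.continuousAt.tendsto
    rw [h0] at h3
    exact h3.mono_left nhdsWithin_le_nhds
  have h4 : Tendsto η (𝓝[≠] 0) (𝓝[≠] c) := tendsto_nhdsWithin_iff.2 ⟨h2, h1⟩
  have h5 : ∀ᶠ z in 𝓝[≠] (0 : ℂ), p (η z) := hp.filter_mono nhdsWithin_le_nhds
  exact h4.frequently h5.frequently

theorem lvl_ab {Q : ℂ × ℂ → ℂ} (hQ : ∀ p ∈ ball (0 : ℂ × ℂ) 2, AnalyticAt ℂ Q p) {a b : ℕ} (ha : 1 ≤ a) (hb : 1 ≤ b) {π : ℂ → ℂ × ℂ}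
    (hπ : AnalyticAt ℂ π 0) (h2 : π 0 ∈ ball (0 : ℂ × ℂ) 2) (hne : (π 0).1 ^ a * (π 0).2 ^ b ≠ 0)
    (hlev : ∀ᶠ z in 𝓝 (0 : ℂ), (π z).1 ^ a * (π z).2 ^ b = (π 0).1 ^ a * (π 0).2 ^ b) (hz : ∀ᶠ z in 𝓝 (0 : ℂ), Q (π z) = 0)
    (hd : deriv π 0 ≠ 0) {y : ℂ} (hy : ‖(π 0).2‖ ≤ ‖y‖) (hy2 : ‖y‖ < 2) : ∃ x : ℂ, x ≠ 0 ∧ ‖x‖ ≤ ‖(π 0).1‖ ∧ Q (x, y) = 0 := by
  have hP1 := HyLvlA_fst hπ
  have hP2 := HyLvlA_snd hπ
  set x₀ : ℂ := (π 0).1 with hx₀
  set y₀ : ℂ := (π 0).2 with hy₀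
  have hx0 : x₀ ≠ 0 := by
    intro h
    apply hne
    rw [h, zero_pow (by omega), zero_mul]
  have hy0 : y₀ ≠ 0 := by
    intro h
    apply hne
    rw [h, zero_pow (by omega), mul_zero]
  have haC : (a : ℂ) ≠ 0 := by exact_mod_cast (by omega : a ≠ 0)
  have hball : ‖x₀‖ < 2 ∧ ‖y₀‖ < 2 := by
    rw [mem_ball_zero_iff, Prod.norm_def, max_lt_iff] at h2
    exact h2
  have hxn : 0 < ‖x₀‖ := norm_pos_iff.2 hx0
  have hyn : 0 < ‖y₀‖ := norm_pos_iff.2 hy0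
  -- the parameter
  set η : ℂ → ℂ := fun z => Complex.log ((π z).2 / y₀) with hη
  have hη0 : η 0 = 0 := by
    simp only [hη]
    rw [← hy₀, div_self hy0, Complex.log_one]
  have hdiv : AnalyticAt ℂ (fun z => (π z).2 / y₀) 0 := hP2.div analyticAt_const hy0
  have hηa : AnalyticAt ℂ η 0 := by
    refine hdiv.clog ?_
    simp only [← hy₀, div_self hy0]
    exact Complex.one_mem_slitPlane
  have hexp : ∀ᶠ z in 𝓝 (0 : ℂ), y₀ * Complex.exp (η z) = (π z).2 := by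
    have h1 : ∀ᶠ z in 𝓝 (0 : ℂ), (π z).2 ≠ 0 := hP2.continuousAt.eventually_ne hy0
    filter_upwards [h1] with z hz1
    simp only [hη]
    rw [Complex.exp_log (div_ne_zero hz1 hy0), mul_div_cancel₀ _ hy0]
  set Φ : ℂ → ℂ × ℂ := fun w => (x₀ * Complex.exp (-((b : ℂ) / a) * w), y₀ * Complex.exp w) with hΦ
  have hπΦ : ∀ᶠ z in 𝓝 (0 : ℂ), π z = Φ (η z) := by
    set r : ℂ → ℂ := fun z => (π z).1 / (x₀ * Complex.exp (-((b : ℂ) / a) * η z)) with hr
    have hrc : ContinuousAt r 0 := by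
      refine hP1.continuousAt.div ?_ (mul_ne_zero hx0 (Complex.exp_ne_zero _))
      exact continuousAt_const.mul (Complex.continuous_exp.continuousAt.comp (continuousAt_const.mul hηa.continuousAt))
    have hr0 : r 0 = 1 := by
      simp only [hr]
      rw [hη0, mul_zero, Complex.exp_zero, mul_one, ← hx₀, div_self hx0]
    have hr1 : ∀ᶠ z in 𝓝 (0 : ℂ), r z ^ a = 1 → r z = 1 := by
      have h1 := root_const ha
      rw [← hr0] at h1
      have h2 := hrc.eventually h1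
      rw [hr0] at h2
      exact h2
    filter_upwards [hr1, hexp, hlev] with z h1 h3 h4
    have h5 : r z ^ a = 1 := by
      simp only [hr]
      have hy1 : (π z).2 ≠ 0 := by
        rw [← h3]
        exact mul_ne_zero hy0 (Complex.exp_ne_zero _)
      have h6 : Complex.exp (-((b : ℂ) / a) * η z) ^ a * (π z).2 ^ b = y₀ ^ b := by
        rw [← Complex.exp_nat_mul, ← h3, mul_pow, ← Complex.exp_nat_mul]
        have h7 : (a : ℂ) * (-((b : ℂ) / a) * η z) = -((b : ℂ) * η z) := by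
          field_simp
        rw [h7, Complex.exp_neg]
        have h8 := Complex.exp_ne_zero ((b : ℂ) * η z)
        field_simp
      rw [div_pow, mul_pow, div_eq_one_iff_eq (mul_ne_zero (pow_ne_zero _ hx0) (pow_ne_zero _ (Complex.exp_ne_zero _)))]
      have h9 : (π z).2 ^ b ≠ 0 := pow_ne_zero _ hy1
      apply mul_right_cancel₀ h9
      rw [h4, mul_assoc, h6]
    have h6 := h1 h5
    simp only [hr] at h6
    rw [div_eq_one_iff_eq (mul_ne_zero hx0 (Complex.exp_ne_zero _))] at h6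
    simp only [hΦ]
    rw [← h6, h3]
  have hΦd : ∀ w : ℂ, AnalyticAt ℂ Φ w := by
    intro w
    have h1 : AnalyticAt ℂ (fun w : ℂ => x₀ * Complex.exp (-((b : ℂ) / a) * w)) w := by
      refine analyticAt_const.mul ?_
      exact (analyticAt_const.mul analyticAt_id).cexp
    have h3 : AnalyticAt ℂ (fun w : ℂ => y₀ * Complex.exp w) w := analyticAt_const.mul analyticAt_id.cexp
    exact h1.prod h3
  have hηd : deriv η 0 ≠ 0 := by
    intro h
    apply hd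
    have h1 : HasDerivAt η 0 0 := by
      have := hηa.differentiableAt.hasDerivAt
      rwa [h] at this
    have h3 : HasDerivAt (fun z => Φ (η z)) ((0 : ℂ) • deriv Φ (η 0)) 0 :=
      HasDerivAt.scomp (h := η) (𝕜' := ℂ) 0 (hΦd (η 0)).differentiableAt.hasDerivAt h1
    rw [zero_smul] at h3
    have h4 : π =ᶠ[𝓝 0] fun z => Φ (η z) := hπΦ
    rw [h4.deriv_eq]
    exact h3.deriv
  -- the half plane
  set S : Set ℂ := {w : ℂ | w.re < Real.log (2 / ‖y₀‖) ∧ -((b : ℝ) / a) * w.re < Real.log (2 / ‖x₀‖)} with hS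
  have hSc : IsPreconnected S := by
    have h1 : Convex ℝ {w : ℂ | w.re < Real.log (2 / ‖y₀‖)} := by
      refine convex_halfSpace_lt (f := fun w : ℂ => w.re) ⟨fun x y => ?_, fun c x => ?_⟩ _
      · simp
      · simp
    have h3 : Convex ℝ {w : ℂ | -((b : ℝ) / a) * w.re < Real.log (2 / ‖x₀‖)} := by
      refine convex_halfSpace_lt (f := fun w : ℂ => -((b : ℝ) / a) * w.re) ⟨fun x y => ?_, fun c x => ?_⟩ _
      · simp only [Complex.add_re]
        ring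
      · simp only [Complex.real_smul, Complex.re_ofReal_mul, smul_eq_mul]
        ring
    exact (h1.inter h3).isPreconnected
  have hS0 : (0 : ℂ) ∈ S := by
    refine ⟨?_, ?_⟩
    · rw [Complex.zero_re]
      exact Real.log_pos (by rw [lt_div_iff₀ hyn]; linarith [hball.2])
    · rw [Complex.zero_re, mul_zero]
      exact Real.log_pos (by rw [lt_div_iff₀ hxn]; linarith [hball.1])
  have hnx : ∀ w : ℂ, ‖x₀ * Complex.exp (-((b : ℂ) / a) * w)‖ = ‖x₀‖ * Real.exp (-((b : ℝ) / a) * w.re) := by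
    intro w
    rw [norm_mul, Complex.norm_exp]
    congr 2
    have h1 : (-((b : ℂ) / a) : ℂ) = ((-((b : ℝ) / a) : ℝ) : ℂ) := by push_cast; ring
    rw [h1, Complex.re_ofReal_mul]
  have hny : ∀ w : ℂ, ‖y₀ * Complex.exp w‖ = ‖y₀‖ * Real.exp w.re := by
    intro w
    rw [norm_mul, Complex.norm_exp]
  have hΦS : ∀ w ∈ S, Φ w ∈ ball (0 : ℂ × ℂ) 2 := by
    rintro w ⟨h1, h3⟩
    rw [mem_ball_zero_iff, Prod.norm_def, max_lt_iff]
    simp only [hΦ]
    rw [hnx, hny]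
    constructor
    · rw [Real.lt_log_iff_exp_lt (by positivity), lt_div_iff₀ hxn] at h3
      linarith
    · rw [Real.lt_log_iff_exp_lt (by positivity), lt_div_iff₀ hyn] at h1
      linarith
  have hFa : AnalyticOnNhd ℂ (fun w => Q (Φ w)) S := by
    intro w hw
    exact AnalyticAt.comp (g := Q) (f := Φ) (hQ _ (hΦS w hw)) (hΦd w)
  have hFz : ∀ᶠ z in 𝓝 (0 : ℂ), Q (Φ (η z)) = 0 := by
    filter_upwards [hπΦ, hz] with z h1 h3
    rw [← h1]
    exact h3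
  have hfreq : ∃ᶠ w in 𝓝[≠] (0 : ℂ), Q (Φ w) = 0 := HyLvlA_punct hηa hη0 hηd (p := fun w => Q (Φ w) = 0) hFz
  have hzero := hFa.eqOn_zero_of_preconnected_of_frequently_eq_zero hSc hS0 hfreq
  -- the point
  have hyne : y ≠ 0 := by
    rintro rfl
    rw [norm_zero] at hy
    linarith
  have hypos : 0 < ‖y‖ := norm_pos_iff.2 hyne
  set w : ℂ := Complex.log (y / y₀) with hw
  have hwre : w.re = Real.log (‖y‖ / ‖y₀‖) := by
    rw [hw, Complex.log_re, norm_div]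
  have hw0 : 0 ≤ w.re := by
    rw [hwre]
    exact Real.log_nonneg (by rw [le_div_iff₀ hyn]; linarith)
  have hab0 : 0 ≤ (b : ℝ) / a := by positivity
  have hwS : w ∈ S := by
    refine ⟨?_, ?_⟩
    · rw [hwre]
      exact Real.log_lt_log (by positivity) (by gcongr)
    · have h1 : -((b : ℝ) / a) * w.re ≤ 0 := by nlinarith
      have h3 := hS0.2
      rw [Complex.zero_re, mul_zero] at h3
      linarith
  refine ⟨x₀ * Complex.exp (-((b : ℂ) / a) * w), mul_ne_zero hx0 (Complex.exp_ne_zero _), ?_, ?_⟩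
  · rw [hnx]
    have h1 : Real.exp (-((b : ℝ) / a) * w.re) ≤ 1 := by
      rw [Real.exp_le_one_iff]
      nlinarith
    nlinarith
  · have h1 : y₀ * Complex.exp w = y := by
      rw [hw, Complex.exp_log (div_ne_zero hyne hy0), mul_div_cancel₀ _ hy0]
    have h3 := hzero hwS
    simp only [hΦ, Pi.zero_apply] at h3
    rw [h1] at h3
    exact h3

theorem lvl_a {Q : ℂ × ℂ → ℂ} (hQ : ∀ p ∈ ball (0 : ℂ × ℂ) 2, AnalyticAt ℂ Q p) {a : ℕ} (ha : 1 ≤ a) {π : ℂ → ℂ × ℂ}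
    (hπ : AnalyticAt ℂ π 0) (h2 : π 0 ∈ ball (0 : ℂ × ℂ) 2) (hne : (π 0).1 ^ a ≠ 0)
    (hlev : ∀ᶠ z in 𝓝 (0 : ℂ), (π z).1 ^ a = (π 0).1 ^ a) (hz : ∀ᶠ z in 𝓝 (0 : ℂ), Q (π z) = 0)
    (hd : deriv π 0 ≠ 0) {y : ℂ} (hy2 : ‖y‖ < 2) : Q ((π 0).1, y) = 0 := by
  have hP1 := HyLvlA_fst hπ
  have hP2 := HyLvlA_snd hπ
  set x₀ : ℂ := (π 0).1 with hx₀
  set y₀ : ℂ := (π 0).2 with hy₀
  have hx0 : x₀ ≠ 0 := by
    intro h
    apply hne
    rw [h, zero_pow (by omega)]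
  have hball : ‖x₀‖ < 2 ∧ ‖y₀‖ < 2 := by
    rw [mem_ball_zero_iff, Prod.norm_def, max_lt_iff] at h2
    exact h2
  have hconst : ∀ᶠ z in 𝓝 (0 : ℂ), (π z).1 = x₀ := by
    have hrc : ContinuousAt (fun z => (π z).1 / x₀) 0 := hP1.continuousAt.div_const _
    have hr0 : (fun z => (π z).1 / x₀) 0 = 1 := div_self hx0
    have h1 := root_const ha
    rw [← hr0] at h1
    have h3 := hrc.eventually h1
    rw [hr0] at h3
    filter_upwards [h3, hlev] with z h4 h5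
    have h6 : (π z).1 / x₀ = 1 := by
      apply h4
      rw [div_pow, h5, div_self (pow_ne_zero _ hx0)]
    exact (div_eq_one_iff_eq hx0).1 h6
  have hd2 : deriv (fun z => (π z).2) 0 ≠ 0 := by
    intro h
    apply hd
    have h1 : HasDerivAt (fun z => (π z).2) 0 0 := by
      have := hP2.differentiableAt.hasDerivAt
      rwa [h] at this
    have h3 : HasDerivAt (fun z => (π z).1) 0 0 := by
      have h4 : (fun z => (π z).1) =ᶠ[𝓝 0] fun _ => x₀ := hconst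
      exact (hasDerivAt_const (0 : ℂ) x₀).congr_of_eventuallyEq h4
    have h5 : HasDerivAt (fun z => ((π z).1, (π z).2)) ((0 : ℂ), (0 : ℂ)) 0 := h3.prodMk h1
    exact h5.deriv
  have hGa : AnalyticOnNhd ℂ (fun y => Q (x₀, y)) (ball 0 2) := by
    intro w hw
    have h1 : AnalyticAt ℂ (fun y : ℂ => ((x₀, y) : ℂ × ℂ)) w := analyticAt_const.prod analyticAt_id
    refine AnalyticAt.comp (g := Q) (f := fun y : ℂ => ((x₀, y) : ℂ × ℂ)) (hQ _ ?_) h1
    rw [mem_ball_zero_iff, Prod.norm_def, max_lt_iff]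
    exact ⟨hball.1, mem_ball_zero_iff.1 hw⟩
  have hfz : ∀ᶠ z in 𝓝 (0 : ℂ), Q (x₀, (π z).2) = 0 := by
    filter_upwards [hconst, hz] with z h1 h3
    rw [← h1]
    exact h3
  have hfreq : ∃ᶠ w in 𝓝[≠] y₀, Q (x₀, w) = 0 := HyLvlA_punct hP2 rfl hd2 (p := fun w => Q (x₀, w) = 0) hfz
  have hzero := hGa.eqOn_zero_of_preconnected_of_frequently_eq_zero (convex_ball _ _).isPreconnected
    (mem_ball_zero_iff.2 hball.2) hfreq
  exact hzero (mem_ball_zero_iff.2 hy2)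

end Pool.Agent.EG
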